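import Pool.Agent.Work.MP_d5a5f5_ag.DP.Final

/-!
Symmetric quartic tensors in any number of variables and their polar forms.
-/

namespace Pool.Agent.Work.MP_d5a5f5_ag.DS

open MvPolynomial

/-- A symmetric quartic tensor. -/
structure QT (n : ℕ) (k : Type*) where
  t : Fin n → Fin n → Fin n → Fin n → k
  s12 : ∀ i j l m, t i j l m = t j i l m
  s23 : ∀ i j l m, t i j l m = t i l j m
  s34 : ∀ i j l m, t i j l m = t i j m l

variable {k : Type*} [Field k] {n : ℕ}

/-- The polar form. -/
def QT.Φ (F : QT n k) {A : Type*} [CommRing A] [Algebra k A] (a b c d : Fin n → A) : A :=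
  ∑ i, ∑ j, ∑ l, ∑ m, algebraMap k A (F.t i j l m) * (a i * b j * c l * d m)

section
variable (F : QT n k) {A : Type*} [CommRing A] [Algebra k A] (a b c d a' : Fin n → A) (r : A)

theorem Φ_add1 : F.Φ (a + a') b c d = F.Φ a b c d + F.Φ a' b c d := by
  simp only [QT.Φ, Pi.add_apply, add_mul, mul_add, Finset.sum_add_distrib]

theorem Φ_add2 : F.Φ a (b + a') c d = F.Φ a b c d + F.Φ a a' c d := by
  simp only [QT.Φ, Pi.add_apply, add_mul, mul_add, Finset.sum_add_distrib]

theorem Φ_add3 : F.Φ a b (c + a') d = F.Φ a b c d + F.Φ a b a' d := by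
  simp only [QT.Φ, Pi.add_apply, add_mul, mul_add, Finset.sum_add_distrib]

theorem Φ_add4 : F.Φ a b c (d + a') = F.Φ a b c d + F.Φ a b c a' := by
  simp only [QT.Φ, Pi.add_apply, mul_add, Finset.sum_add_distrib]

theorem Φ_smul1 : F.Φ (r • a) b c d = r * F.Φ a b c d := by
  simp only [QT.Φ, Pi.smul_apply, smul_eq_mul, Finset.mul_sum]
  refine Finset.sum_congr rfl fun i _ => Finset.sum_congr rfl fun j _ =>
    Finset.sum_congr rfl fun l _ => Finset.sum_congr rfl fun m _ => by ring

theorem Φ_smul2 : F.Φ a (r • b) c d = r * F.Φ a b c d := by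
  simp only [QT.Φ, Pi.smul_apply, smul_eq_mul, Finset.mul_sum]
  refine Finset.sum_congr rfl fun i _ => Finset.sum_congr rfl fun j _ =>
    Finset.sum_congr rfl fun l _ => Finset.sum_congr rfl fun m _ => by ring

theorem Φ_smul3 : F.Φ a b (r • c) d = r * F.Φ a b c d := by
  simp only [QT.Φ, Pi.smul_apply, smul_eq_mul, Finset.mul_sum]
  refine Finset.sum_congr rfl fun i _ => Finset.sum_congr rfl fun j _ =>
    Finset.sum_congr rfl fun l _ => Finset.sum_congr rfl fun m _ => by ring

theorem Φ_smul4 : F.Φ a b c (r • d) = r * F.Φ a b c d := by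
  simp only [QT.Φ, Pi.smul_apply, smul_eq_mul, Finset.mul_sum]
  refine Finset.sum_congr rfl fun i _ => Finset.sum_congr rfl fun j _ =>
    Finset.sum_congr rfl fun l _ => Finset.sum_congr rfl fun m _ => by ring

theorem Φ_zero1 : F.Φ 0 b c d = 0 := by simp [QT.Φ]
theorem Φ_zero2 : F.Φ a 0 c d = 0 := by simp [QT.Φ]
theorem Φ_zero3 : F.Φ a b 0 d = 0 := by simp [QT.Φ]
theorem Φ_zero4 : F.Φ a b c 0 = 0 := by simp [QT.Φ]

theorem Φ_neg1 : F.Φ (-a) b c d = - F.Φ a b c d := by
  have := Φ_smul1 F a b c d (-1); simpa using this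
theorem Φ_neg2 : F.Φ a (-b) c d = - F.Φ a b c d := by
  have := Φ_smul2 F a b c d (-1); simpa using this
theorem Φ_neg3 : F.Φ a b (-c) d = - F.Φ a b c d := by
  have := Φ_smul3 F a b c d (-1); simpa using this
theorem Φ_neg4 : F.Φ a b c (-d) = - F.Φ a b c d := by
  have := Φ_smul4 F a b c d (-1); simpa using this

theorem Φ_sub1 : F.Φ (a - a') b c d = F.Φ a b c d - F.Φ a' b c d := by
  rw [sub_eq_add_neg, Φ_add1, Φ_neg1, sub_eq_add_neg]
theorem Φ_sub2 : F.Φ a (b - a') c d = F.Φ a b c d - F.Φ a a' c d := by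
  rw [sub_eq_add_neg, Φ_add2, Φ_neg2, sub_eq_add_neg]
theorem Φ_sub3 : F.Φ a b (c - a') d = F.Φ a b c d - F.Φ a b a' d := by
  rw [sub_eq_add_neg, Φ_add3, Φ_neg3, sub_eq_add_neg]
theorem Φ_sub4 : F.Φ a b c (d - a') = F.Φ a b c d - F.Φ a b c a' := by
  rw [sub_eq_add_neg, Φ_add4, Φ_neg4, sub_eq_add_neg]

theorem Φ_s12 : F.Φ a b c d = F.Φ b a c d := by
  unfold QT.Φ
  rw [Finset.sum_comm]
  refine Finset.sum_congr rfl fun i _ => Finset.sum_congr rfl fun j _ =>
    Finset.sum_congr rfl fun l _ => Finset.sum_congr rfl fun m _ => ?_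
  rw [F.s12]; ring

theorem Φ_s23 : F.Φ a b c d = F.Φ a c b d := by
  unfold QT.Φ
  refine Finset.sum_congr rfl fun i _ => ?_
  rw [Finset.sum_comm]
  refine Finset.sum_congr rfl fun j _ =>
    Finset.sum_congr rfl fun l _ => Finset.sum_congr rfl fun m _ => ?_
  rw [F.s23]; ring

theorem Φ_s34 : F.Φ a b c d = F.Φ a b d c := by
  unfold QT.Φ
  refine Finset.sum_congr rfl fun i _ => Finset.sum_congr rfl fun j _ => ?_
  rw [Finset.sum_comm]
  refine Finset.sum_congr rfl fun l _ => Finset.sum_congr rfl fun m _ => ?_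
  rw [F.s34]; ring

theorem Φ_map {B : Type*} [CommRing B] [Algebra k B] (f : A →ₐ[k] B) :
    f (F.Φ a b c d) = F.Φ (fun i => f (a i)) (fun i => f (b i)) (fun i => f (c i))
      (fun i => f (d i)) := by
  simp only [QT.Φ, map_sum, map_mul, AlgHom.commutes]

theorem Φ_der (δ : Derivation k A A) :
    δ (F.Φ a b c d) = F.Φ (fun i => δ (a i)) b c d + F.Φ a (fun i => δ (b i)) c d
      + F.Φ a b (fun i => δ (c i)) d + F.Φ a b c (fun i => δ (d i)) := by
  simp only [QT.Φ, map_sum, Derivation.leibniz, Derivation.map_algebraMap, smul_eq_mul,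
    mul_zero, add_zero, ← Finset.sum_add_distrib]
  refine Finset.sum_congr rfl fun i _ => Finset.sum_congr rfl fun j _ =>
    Finset.sum_congr rfl fun l _ => Finset.sum_congr rfl fun m _ => by ring

theorem Φ_basis : F.Φ a b c d = ∑ i, d i * F.Φ a b c (Pi.single i 1) := by
  have : d = ∑ i, d i • (Pi.single i (1 : A) : Fin n → A) := by
    ext j; simp [Finset.sum_apply, Pi.single_apply]
  conv_lhs => rw [this]
  have h : ∀ s : Finset (Fin n), F.Φ a b c (∑ i ∈ s, d i • (Pi.single i (1 : A) : Fin n → A)) =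
      ∑ i ∈ s, d i * F.Φ a b c (Pi.single i 1) := by
    intro s
    induction s using Finset.induction_on with
    | empty => simp [Φ_zero4]
    | insert i s hi ih => rw [Finset.sum_insert hi, Finset.sum_insert hi, Φ_add4, Φ_smul4, ih]
  exact h Finset.univ

end

theorem pderiv_comm' (i j : Fin n) (q : MvPolynomial (Fin n) k) :
    pderiv i (pderiv j q) = pderiv j (pderiv i q) := by
  ext m
  rw [coeff_pderiv, coeff_pderiv, coeff_pderiv, coeff_pderiv]
  rcases eq_or_ne i j with rfl | h
  · rfl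
  · have e : m + Finsupp.single i 1 + Finsupp.single j 1
        = m + Finsupp.single j 1 + Finsupp.single i 1 := by abel
    rw [e]
    simp [h, h.symm]
    ring

/-- every quartic form is given by a symmetric tensor -/
theorem exists_tensor [CharZero k] (Q : MvPolynomial (Fin n) k) (hQ : Q.IsHomogeneous 4) :
    ∃ F : QT n k, Q = F.Φ (fun i => (X i : MvPolynomial (Fin n) k)) (fun i => X i)
      (fun i => X i) (fun i => X i) := by
  let c : Fin n → Fin n → Fin n → Fin n → k := fun i j l m =>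
    coeff 0 (pderiv i (pderiv j (pderiv l (pderiv m Q))))
  have hc : ∀ i j l m, pderiv i (pderiv j (pderiv l (pderiv m Q))) = C (c i j l m) := by
    intro i j l m
    have h0 : (pderiv i (pderiv j (pderiv l (pderiv m Q)))).IsHomogeneous 0 :=
      hQ.pderiv.pderiv.pderiv.pderiv
    rw [← totalDegree_zero_iff_isHomogeneous, totalDegree_eq_zero_iff_eq_C] at h0
    exact h0
  refine ⟨⟨fun m l j i => c i j l m / 24, ?_, ?_, ?_⟩, ?_⟩
  · intro i j l m; simp only [c]; rw [pderiv_comm' j i]
  · intro i j l m; simp only [c]; rw [pderiv_comm' l j]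
  · intro i j l m; simp only [c]; rw [pderiv_comm' m l]
  · have e1 : ∀ j l m, pderiv j (pderiv l (pderiv m Q)) = ∑ i, X i * C (c i j l m) := by
      intro j l m
      have := (hQ.pderiv (i := m)).pderiv (i := l) |>.pderiv (i := j) |>.sum_X_mul_pderiv
      simp only [hc] at this
      rw [this]; simp
    have e2 : ∀ l m, 2 * pderiv l (pderiv m Q) = ∑ j, X j * ∑ i, X i * C (c i j l m) := by
      intro l m
      have := (hQ.pderiv (i := m)).pderiv (i := l) |>.sum_X_mul_pderiv
      simp only [e1] at this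
      rw [this]; simp
    have e3 : ∀ m, 6 * pderiv m Q = ∑ l, X l * ∑ j, X j * ∑ i, X i * C (c i j l m) := by
      intro m
      have := (hQ.pderiv (i := m)) |>.sum_X_mul_pderiv
      simp only [← e2]
      have h2 : ∑ l, (X l : MvPolynomial (Fin n) k) * (2 * pderiv l (pderiv m Q)) =
          2 * ∑ l, X l * pderiv l (pderiv m Q) := by
        rw [Finset.mul_sum]; exact Finset.sum_congr rfl fun i _ => by ring
      rw [h2, this]; simp; ring
    have e4 : 24 * Q = ∑ m, X m * ∑ l, X l * ∑ j, X j * ∑ i, X i * C (c i j l m) := by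
      have := hQ.sum_X_mul_pderiv
      simp only [← e3]
      have h2 : ∑ l, (X l : MvPolynomial (Fin n) k) * (6 * pderiv l Q) =
          6 * ∑ l, X l * pderiv l Q := by
        rw [Finset.mul_sum]; exact Finset.sum_congr rfl fun i _ => by ring
      rw [h2, this]; simp; ring
    have h24 : (24 : MvPolynomial (Fin n) k) ≠ 0 := by
      have : (24 : MvPolynomial (Fin n) k) = C 24 := (map_ofNat C 24).symm
      rw [this]; simp
    apply mul_left_cancel₀ h24
    rw [e4]
    unfold QT.Φ
    simp only [Finset.mul_sum]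
    refine Finset.sum_congr rfl fun m _ => Finset.sum_congr rfl fun l _ =>
      Finset.sum_congr rfl fun j _ => Finset.sum_congr rfl fun i _ => ?_
    rw [MvPolynomial.algebraMap_eq]
    have : (C (c i j l m) : MvPolynomial (Fin n) k) = 24 * C (c i j l m / 24) := by
      have e : (24 : MvPolynomial (Fin n) k) = C 24 := (map_ofNat C 24).symm
      rw [e, ← C_mul]; congr 1; field_simp
    rw [this]; ring

theorem aeval_tensor {F : QT n k} {Q : MvPolynomial (Fin n) k}
    (h : Q = F.Φ (fun i => (X i : MvPolynomial (Fin n) k)) (fun i => X i)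
      (fun i => X i) (fun i => X i)) {A : Type*} [CommRing A] [Algebra k A] (x : Fin n → A) :
    aeval x Q = F.Φ x x x x := by
  conv_lhs => rw [h]
  rw [Φ_map]
  simp

theorem aeval_pderiv_tensor {F : QT n k} {Q : MvPolynomial (Fin n) k}
    (h : Q = F.Φ (fun i => (X i : MvPolynomial (Fin n) k)) (fun i => X i)
      (fun i => X i) (fun i => X i)) {A : Type*} [CommRing A] [Algebra k A] (x : Fin n → A)
    (i : Fin n) :
    aeval x (pderiv i Q) = 4 * F.Φ x x x (Pi.single i 1) := by
  have e : (fun j => pderiv i (X j : MvPolynomial (Fin n) k)) = Pi.single i 1 := by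
    ext1 j; rw [pderiv_X]
  have e2 : (fun j => (aeval x) ((Pi.single i (1 : MvPolynomial (Fin n) k) :
      Fin n → MvPolynomial (Fin n) k) j)) = Pi.single i 1 := by
    ext j; simp only [Pi.single_apply]; split_ifs <;> simp
  conv_lhs => rw [h]
  rw [Φ_der, e]
  simp only [map_add, Φ_map, aeval_X, e2]
  rw [Φ_s12 F (Pi.single i 1), Φ_s23 F x (Pi.single i 1), Φ_s34 F x x (Pi.single i 1)]
  ring

end Pool.Agent.Work.MP_d5a5f5_ag.DS
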