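import Mathlib

/-!
Double covers of projective space branched in a quartic hypersurface: definitions.
-/

namespace Pool.Agent.Work.MP_d5a5f5_ag.DS

open MvPolynomial

variable {k : Type*} [Field k] {n : ℕ}

/-- The quartic hypersurface `Q = 0` is smooth: the partial derivatives of `Q` have no common zero
other than the origin over the algebraic closure of `k`. -/
def Smooth (Q : MvPolynomial (Fin n) k) : Prop :=
  ∀ x : Fin n → AlgebraicClosure k, (∀ i, aeval x (pderiv i Q) = 0) → x = 0

/-- The double cover `X : w² = Q(x)` of `(n - 1)`-dimensional projective space, in the weighted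
projective space with weights `2, 1, ..., 1`, is `k`-unirational: there are polynomials `g` and
`f = (f₁, ..., fₙ)` over `k` in `m` variables, `f` not zero, with `g² = Q(f)`, so that they define a
rational map from `m`-space to `X`, which is dominant: every weighted form over `k` in `w` and
`x` (here `w` is the variable with index 0) which vanishes at `(g, f)` vanishes at every point of
`X` over the algebraic closure of `k`. -/
def Unirational (Q : MvPolynomial (Fin n) k) : Prop :=
  ∃ (m : ℕ) (g : MvPolynomial (Fin m) k) (f : Fin n → MvPolynomial (Fin m) k),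
    f ≠ 0 ∧ g ^ 2 = aeval f Q ∧
    ∀ (d : ℕ) (H : MvPolynomial (Fin (n + 1)) k),
      H.IsWeightedHomogeneous (Fin.cons 2 fun _ => 1 : Fin (n + 1) → ℕ) d →
      aeval (Fin.cons g f : Fin (n + 1) → MvPolynomial (Fin m) k) H = 0 →
      ∀ (w : AlgebraicClosure k) (x : Fin n → AlgebraicClosure k), w ^ 2 = aeval x Q →
        aeval (Fin.cons w x : Fin (n + 1) → AlgebraicClosure k) H = 0

/-- The point `p` of the hypersurface `Q = 0` is a star point: the intersection of the hypersurface
with its tangent hyperplane at `p` is a cone with vertex `p`. -/
def StarPoint (Q : MvPolynomial (Fin n) k) (p : Fin n → k) : Prop :=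
  ∀ (v : Fin n → k) (s : k), ∑ i, v i * aeval p (pderiv i Q) = 0 →
    aeval (v + s • p) Q = aeval v Q

end Pool.Agent.Work.MP_d5a5f5_ag.DS
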