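import Pool.Agent.Work.MP_d5a5f5_ag.DS.Basic

/-!
Derivations of the algebraic closure of a rational function field, and smoothness over larger
fields.
-/

namespace Pool.Agent.Work.MP_d5a5f5_ag.DS

open MvPolynomial TensorProduct

universe u

section
variable (R S T : Type u) [CommRing R] [CommRing S] [CommRing T] [Algebra R S] [Algebra R T]
  [Algebra S T] [IsScalarTower R S T] [Algebra.FormallyEtale S T]

theorem der_lift (d : Derivation R S T) :
    ∃ D : Derivation R T T, ∀ s, D (algebraMap S T s) = d s := by
  let e := KaehlerDifferential.tensorKaehlerEquivOfFormallyEtale R S T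
  let l : T ⊗[S] Ω[S⁄R] →ₗ[T] T :=
    LinearMap.liftBaseChange T d.liftKaehlerDifferential
  let L : Ω[T⁄R] →ₗ[T] T := l.comp e.symm.toLinearMap
  refine ⟨L.compDer (KaehlerDifferential.D R T), fun s => ?_⟩
  change l (e.symm (KaehlerDifferential.D R T (algebraMap S T s))) = d s
  rw [KaehlerDifferential.tensorKaehlerEquivOfFormallyEtale_symm_D_algebraMap]
  simp [l]

end

theorem exists_der {k : Type u} [Field k] [CharZero k] {σ : Type}
    (f : σ → AlgebraicClosure (FractionRing (MvPolynomial σ k))) :
    ∃ D : Derivation k (AlgebraicClosure (FractionRing (MvPolynomial σ k)))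
      (AlgebraicClosure (FractionRing (MvPolynomial σ k))),
      ∀ i, D (algebraMap (MvPolynomial σ k) _ (X i)) = f i := by
  have : Algebra.FormallyEtale (MvPolynomial σ k) (FractionRing (MvPolynomial σ k)) :=
    Algebra.FormallyEtale.of_isLocalization (nonZeroDivisors (MvPolynomial σ k))
  have : Algebra.FormallyEtale (FractionRing (MvPolynomial σ k))
    (AlgebraicClosure (FractionRing (MvPolynomial σ k))) :=
    Algebra.FormallyEtale.of_isSeparable _ _
  have : Algebra.FormallyEtale (MvPolynomial σ k)
    (AlgebraicClosure (FractionRing (MvPolynomial σ k))) :=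
    Algebra.FormallyEtale.comp _ (FractionRing (MvPolynomial σ k)) _
  obtain ⟨D, hD⟩ := der_lift k (MvPolynomial σ k)
    (AlgebraicClosure (FractionRing (MvPolynomial σ k))) (mkDerivation k f)
  exact ⟨D, fun i => by rw [hD, mkDerivation_X]⟩

variable {k : Type u} [Field k] {n : ℕ}

/-- smoothness in terms of the tensor -/
def QT.Sm (F : QT n k) : Prop :=
  ∀ x : Fin n → AlgebraicClosure k, (∀ i, F.Φ x x x (Pi.single i 1) = 0) → x = 0

/-- smoothness over larger fields -/
theorem Sm_big (F : QT n k) (hF : F.Sm) {Ω : Type*} [Field Ω] [Algebra k Ω] [IsAlgClosed Ω]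
    (x : Fin n → Ω) (hx : ∀ i, F.Φ x x x (Pi.single i 1) = 0) : x = 0 := by
  let L := AlgebraicClosure k
  let φ : L →ₐ[k] Ω := IsAlgClosed.lift
  let _ : Algebra L Ω := φ.toRingHom.toAlgebra
  have : IsScalarTower k L Ω := IsScalarTower.of_algebraMap_eq fun r => (φ.commutes r).symm
  let XX : Fin n → MvPolynomial (Fin n) L := fun i => X i
  let g : Fin n → MvPolynomial (Fin n) L := fun i => F.Φ XX XX XX (Pi.single i 1)
  let I : Ideal (MvPolynomial (Fin n) L) := Ideal.span (Set.range g)
  -- the zero locus
  have hzero : ∀ y : Fin n → L, y ∈ zeroLocus L I → y = 0 := by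
    intro y hy
    apply hF y
    intro i
    have h1 : aeval y (g i) = 0 := hy _ (Ideal.subset_span ⟨i, rfl⟩)
    have h2 := Φ_map F XX XX XX (Pi.single i 1)
      ((aeval y : MvPolynomial (Fin n) L →ₐ[L] L).restrictScalars k)
    have e1 : (fun j => ((aeval y : MvPolynomial (Fin n) L →ₐ[L] L).restrictScalars k) (XX j)) = y := by
      ext1 j; simp [XX]
    have e2 : (fun j => ((aeval y : MvPolynomial (Fin n) L →ₐ[L] L).restrictScalars k)
        ((Pi.single i (1 : MvPolynomial (Fin n) L) : Fin n → MvPolynomial (Fin n) L) j))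
        = Pi.single i 1 := by
      ext1 j; simp only [Pi.single_apply]; split_ifs <;> simp
    rw [e1, e2] at h2
    rw [← h2]
    exact h1
  ext1 i
  have hrad : (X i : MvPolynomial (Fin n) L) ∈ I.radical := by
    rw [← MvPolynomial.vanishingIdeal_zeroLocus_eq_radical (K := L)]
    rw [MvPolynomial.mem_vanishingIdeal_iff]
    intro y hy
    rw [hzero y hy]; simp
  obtain ⟨m, hm⟩ := hrad
  have hk : ∀ p ∈ I, aeval x p = 0 := by
    intro p hp
    induction hp using Submodule.span_induction with
    | mem p hp =>
      obtain ⟨j, rfl⟩ := hp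
      have h2 := Φ_map F XX XX XX (Pi.single j 1)
        ((aeval x : MvPolynomial (Fin n) L →ₐ[L] Ω).restrictScalars k)
      have e1 : (fun j => ((aeval x : MvPolynomial (Fin n) L →ₐ[L] Ω).restrictScalars k) (XX j))
          = x := by
        ext1 j; simp [XX]
      have e2 : (fun l => ((aeval x : MvPolynomial (Fin n) L →ₐ[L] Ω).restrictScalars k)
          ((Pi.single j (1 : MvPolynomial (Fin n) L) : Fin n → MvPolynomial (Fin n) L) l))
          = Pi.single j 1 := by
        ext1 l; simp only [Pi.single_apply]; split_ifs <;> simp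
      rw [e1, e2, hx] at h2
      exact h2
    | zero => simp
    | add p q _ _ hp hq => rw [map_add, hp, hq, add_zero]
    | smul c p _ hp => rw [smul_eq_mul, map_mul, hp, mul_zero]
  have h3 := hk _ hm
  rw [map_pow, aeval_X] at h3
  exact eq_zero_of_pow_eq_zero h3

end Pool.Agent.Work.MP_d5a5f5_ag.DS
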