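import Pool.Agent.Work.MP_d5a5f5_ag.DS.Plane

/-!
From the generic plane section back to the whole variety.
-/

namespace Pool.Agent.Work.MP_d5a5f5_ag.DS

open MvPolynomial

universe u

section clear
variable (R K : Type u) [CommRing R] [IsDomain R] [Field K] [Algebra R K] [IsFractionRing R K]

/-- clearing denominators -/
theorem clear {ι : Type} (q : MvPolynomial ι K) : ∃ r : R, r ≠ 0 ∧ ∃ q' : MvPolynomial ι R,
    map (algebraMap R K) q' = C (algebraMap R K r) * q := by
  induction q using MvPolynomial.induction_on with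
  | C c =>
    obtain ⟨⟨a, b⟩, hab⟩ := IsLocalization.surj (nonZeroDivisors R) c
    refine ⟨b, nonZeroDivisors.coe_ne_zero b, C a, ?_⟩
    rw [map_C, ← C_mul, mul_comm, hab]
  | add p q hp hq =>
    obtain ⟨r1, h1, p', hp'⟩ := hp
    obtain ⟨r2, h2, q', hq'⟩ := hq
    refine ⟨r1 * r2, mul_ne_zero h1 h2, C r2 * p' + C r1 * q', ?_⟩
    rw [map_add, map_mul, map_mul, hp', hq', map_C, map_C, map_mul, C_mul]; ring
  | mul_X p i hp =>
    obtain ⟨r1, h1, p', hp'⟩ := hp
    refine ⟨r1, h1, p' * X i, ?_⟩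
    rw [map_mul, hp', map_X, mul_assoc]

theorem clear4 {ι : Type} (f : Fin 3 → MvPolynomial ι K) (g : MvPolynomial ι K) :
    ∃ r : R, r ≠ 0 ∧ ∃ (f' : Fin 3 → MvPolynomial ι R) (g' : MvPolynomial ι R),
      (∀ a, map (algebraMap R K) (f' a) = C (algebraMap R K r) * f a) ∧
      map (algebraMap R K) g' = C (algebraMap R K r) ^ 2 * g := by
  obtain ⟨r0, h0, q0, e0⟩ := clear R K (f 0)
  obtain ⟨r1, h1, q1, e1⟩ := clear R K (f 1)
  obtain ⟨r2, h2, q2, e2⟩ := clear R K (f 2)
  obtain ⟨r3, h3, q3, e3⟩ := clear R K g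
  refine ⟨r0 * r1 * r2 * r3, mul_ne_zero (mul_ne_zero (mul_ne_zero h0 h1) h2) h3,
    ![C (r1 * r2 * r3) * q0, C (r0 * r2 * r3) * q1, C (r0 * r1 * r3) * q2],
    C ((r0 * r1 * r2) ^ 2 * r3) * q3, ?_, ?_⟩
  · intro a
    rcases (show a = 0 ∨ a = 1 ∨ a = 2 by fin_cases a <;> simp) with rfl | rfl | rfl
    · simp only [Matrix.cons_val_zero, map_mul, map_C, e0]; ring
    · simp only [Matrix.cons_val_one, Matrix.cons_val_zero, map_mul, map_C, e1]; ring
    · simp only [Matrix.cons_val, map_mul, map_C, e2]; ring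
  · simp only [map_mul, map_C, e3, map_pow]; ring

end clear

variable {k : Type u} [Field k] {n : ℕ}

theorem lin_apply {K A : Type*} [Field K] [Algebra k K] [CommRing A] [Algebra K A]
    (s : Fin 3 → Fin n → K) (x : Fin 3 → A) (i : Fin n) :
    lin s x i = ∑ a, x a * algebraMap K A (s a i) := by
  unfold lin
  simp only [Finset.sum_apply, Pi.smul_apply, smul_eq_mul]

/-- the coordinates of the generic vectors in the polynomial ring -/
noncomputable def genR (p : Fin n → k) : Fin 3 → Fin n → MvPolynomial (Fin n ⊕ Fin n) k :=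
  ![fun i => C (p i), fun i => X (Sum.inl i), fun i => X (Sum.inr i)]

theorem genR_map (p : Fin n → k) (a : Fin 3) (i : Fin n) :
    algebraMap (MvPolynomial (Fin n ⊕ Fin n) k) (KK k n) (genR p a i) = gen p a i := by
  rcases (show a = 0 ∨ a = 1 ∨ a = 2 by fin_cases a <;> simp) with rfl | rfl | rfl
  · simp only [genR, gen, Matrix.cons_val_zero]
    rw [← MvPolynomial.algebraMap_eq, ← IsScalarTower.algebraMap_apply]
  · rfl
  · rfl

theorem descent [CharZero k] (F : QT n k) (hF : F.Sm) (p : Fin n → k) (hn : 4 ≤ n) (hp : p ≠ 0)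
    (hc : DP.HasCurve (restr F (gen p))) :
    ∃ (m : ℕ) (g : MvPolynomial (Fin m) k) (f : Fin n → MvPolynomial (Fin m) k),
      g ^ 2 = F.Φ f f f f ∧ ∀ G : MvPolynomial (Fin n) k, aeval f G = 0 → G = 0 := by
  obtain ⟨c, w, hw, hw0, hpar⟩ := hc
  obtain ⟨f, g, hg, hf⟩ := DP.step2 (restr F (gen p)) (plane_Sm F hF p hn hp) c w hw hw0 hpar
  obtain ⟨r, hr, f', g', hf', hg'⟩ := clear4 (MvPolynomial (Fin n ⊕ Fin n) k) (KK k n) f g
  let R := MvPolynomial (Fin n ⊕ Fin n) k
  let ψ : MvPolynomial (Fin 4) R →ₐ[k] MvPolynomial (Fin 4) (KK k n) :=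
    mapAlgHom (IsScalarTower.toAlgHom k R (KK k n))
  have hψ : ∀ q, ψ q = map (algebraMap R (KK k n)) q := fun q => rfl
  have hinj : Function.Injective ψ := by
    intro q q' h
    rw [hψ, hψ] at h
    exact map_injective _ (IsFractionRing.injective R (KK k n)) h
  let ρ : MvPolynomial (Fin 4) (KK k n) := C (algebraMap R (KK k n) r)
  let FF : Fin n → MvPolynomial (Fin 4) R := fun i => ∑ a, f' a * C (genR p a i)
  have hFF : ∀ i, ψ (FF i) = lin (gen p) (ρ • f) i := by
    intro i
    rw [lin_apply (k := k)]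
    simp only [FF, map_sum, map_mul]
    refine Finset.sum_congr rfl fun a _ => ?_
    rw [hψ, hψ, hf', map_C, genR_map, Pi.smul_apply, smul_eq_mul, MvPolynomial.algebraMap_eq]
  have hFF' : (fun i => ψ (FF i)) = lin (gen p) (ρ • f) := funext hFF
  have hsq : g' ^ 2 = F.Φ FF FF FF FF := by
    apply hinj
    rw [map_pow, Φ_map, hFF', ← restr_Φ, DP.Φ_smul1, DP.Φ_smul2, DP.Φ_smul3, DP.Φ_smul4, ← hg,
      hψ, hg']
    simp only [ρ]; ring
  -- the final ring
  let e : MvPolynomial (Fin 4) R ≃ₐ[k]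
      MvPolynomial (Fin (Fintype.card (Fin 4 ⊕ (Fin n ⊕ Fin n)))) k :=
    (sumAlgEquiv k (Fin 4) (Fin n ⊕ Fin n)).symm.trans
      (renameEquiv k (Fintype.equivFin (Fin 4 ⊕ (Fin n ⊕ Fin n))))
  refine ⟨_, e g', fun i => e (FF i), ?_, ?_⟩
  · rw [← map_pow, hsq]
    exact Φ_map F FF FF FF FF e.toAlgHom
  · intro G hG
    have h1 : aeval FF G = 0 := by
      apply e.injective
      rw [map_zero, ← hG]
      exact (MvPolynomial.comp_aeval_apply (f := FF) e.toAlgHom G)
    have h2 : aeval (lin (gen p) (ρ • f)) G = 0 := by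
      have := congrArg ψ h1
      rw [map_zero] at this
      rw [← this, ← hFF']
      exact (MvPolynomial.comp_aeval_apply (f := FF) ψ G).symm
    let XX : Fin 3 → MvPolynomial (Fin 3) (KK k n) := fun a => X a
    let Gt : MvPolynomial (Fin 3) (KK k n) := aeval (lin (gen p) XX) G
    have hGt : ∀ {A : Type u} [CommRing A] [Algebra (KK k n) A] [Algebra k A]
        [IsScalarTower k (KK k n) A] (y : Fin 3 → A), aeval y Gt = aeval (lin (gen p) y) G := by
      intro A _ _ _ _ y
      have h3 := MvPolynomial.comp_aeval_apply (f := lin (gen p) XX)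
        ((aeval y : MvPolynomial (Fin 3) (KK k n) →ₐ[KK k n] A).restrictScalars k) G
      have h4 : (fun i => ((aeval y : MvPolynomial (Fin 3) (KK k n) →ₐ[KK k n] A).restrictScalars k)
          (lin (gen p) XX i)) = lin (gen p) y := by
        ext1 i
        rw [lin_apply (k := k), lin_apply (k := k)]
        simp [XX]
      rw [h4] at h3
      exact h3
    let θ : MvPolynomial (Fin 3) (KK k n) →ₐ[KK k n] MvPolynomial (Fin 3) (KK k n) :=
      aeval (fun a => C (algebraMap R (KK k n) r) * X a)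
    let θ' : MvPolynomial (Fin 3) (KK k n) →ₐ[KK k n] MvPolynomial (Fin 3) (KK k n) :=
      aeval (fun a => C (algebraMap R (KK k n) r)⁻¹ * X a)
    have hr' : algebraMap R (KK k n) r ≠ 0 := by
      intro h
      exact hr ((map_eq_zero_iff _ (IsFractionRing.injective R (KK k n))).mp h)
    have hθ : ∀ q, θ' (θ q) = q := by
      intro q
      have : θ'.comp θ = AlgHom.id _ _ := by
        apply MvPolynomial.algHom_ext
        intro a
        simp only [θ, θ', AlgHom.comp_apply, aeval_X, map_mul, algHom_C, AlgHom.id_apply,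
          MvPolynomial.algebraMap_eq]
        rw [← mul_assoc, ← C_mul, mul_inv_cancel₀ hr', C_1, one_mul]
      exact congrArg (fun φ : MvPolynomial (Fin 3) (KK k n) →ₐ[KK k n]
        MvPolynomial (Fin 3) (KK k n) => φ q) this
    have h5 : aeval f (θ Gt) = 0 := by
      rw [← h2, ← hGt]
      have h6 := MvPolynomial.comp_aeval_apply (f := fun a => C (algebraMap R (KK k n) r) * X a)
        (aeval f : MvPolynomial (Fin 3) (KK k n) →ₐ[KK k n] _) Gt
      rw [show θ Gt = aeval (fun a => C (algebraMap R (KK k n) r) * X a) Gt from rfl, h6]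
      congr 2
      ext1 a
      simp [ρ]
    have h6 := hf _ h5
    have h7 : Gt = 0 := by rw [← hθ Gt, h6, map_zero]
    have h8 := hGt (Pi.single 1 (1 : KK k n) : Fin 3 → KK k n)
    rw [h7, map_zero, lin_single] at h8
    have h9 : (fun i => algebraMap (KK k n) (KK k n) (gen p 1 i)) =
        fun i => IsScalarTower.toAlgHom k R (KK k n) (X (Sum.inl i)) := by
      ext1 i; rfl
    rw [h9, ← MvPolynomial.comp_aeval_apply (f := fun i => (X (Sum.inl i) : R))] at h8
    have h10 : (aeval fun i => (X (Sum.inl i) : R)) G = 0 := by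
      apply IsFractionRing.injective R (KK k n)
      rw [map_zero]; exact h8.symm
    have h11 : rename Sum.inl G = (0 : R) := by
      have := aeval_rename (Sum.inl : Fin n → Fin n ⊕ Fin n) (X : Fin n ⊕ Fin n → R) G
      rw [aeval_X_left_apply] at this
      rw [this]
      exact h10
    exact (rename_injective _ Sum.inl_injective) (by rw [h11, map_zero])

end Pool.Agent.Work.MP_d5a5f5_ag.DS
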