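import Pool.Agent.Work.MP_d5a5f5_ag.DS.JNe

/-!
Rational curves on the generic plane section through a point of the branch hypersurface.
-/

namespace Pool.Agent.Work.MP_d5a5f5_ag.DS

open MvPolynomial

universe u

section three

variable {k : Type*} [Field k]

theorem caseIII_gen [CharZero k] (F : DP.Quartic k) (hF : F.Sm) (p v b : Fin 3 → k)
    (hp : p ≠ 0) (h0 : F.Φ p p p p = 0) (hv : F.Φ p p p v = 0) (ha : F.Φ p p v v ≠ 0)
    (hb : F.Φ p p p b ≠ 0) (E : Fin 3 → k)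
    (hE : E = (3 * F.Φ p p v v) • v - F.Φ p v v v • p)
    (hJ : F.Φ E E E b * F.Φ p p E E - F.Φ E E E E * F.Φ p p E b ≠ 0) : DP.HasCurve F := by
  obtain ⟨t, ht⟩ : ∃ t, t * (4 * F.Φ p p p b) = 1 := ⟨1 / (4 * F.Φ p p p b), by field_simp⟩
  obtain ⟨e, hedef⟩ : ∃ e : Fin 3 → k, e = t • b := ⟨_, rfl⟩
  have he : 4 * F.Φ p p p e = 1 := by
    rw [hedef, DP.Φ_smul4]; linear_combination ht
  have hd := DP.indep F p v e hp h0 hv he (by
    rintro c rfl
    apply ha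
    rw [DP.Φ_smul3, DP.Φ_smul4, h0]; ring)
  obtain ⟨α, hα⟩ : ∃ α, α * (3 * F.Φ p p v v) = - F.Φ p v v v :=
    ⟨- F.Φ p v v v / (3 * F.Φ p p v v), by field_simp⟩
  set e1 : Fin 3 → k := v + α • p with he1
  have hEe : E = (3 * F.Φ p p v v) • e1 := by
    rw [hE, he1, smul_add, smul_smul]
    have : 3 * F.Φ p p v v * α = - F.Φ p v v v := by linear_combination hα
    rw [this, neg_smul, sub_eq_add_neg]
  have a1 : F.Φ p p p e1 = 0 := by
    rw [he1, DP.Φ_add4, DP.Φ_smul4, h0, hv]; ring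
  have a2 : F.Φ p p e1 e1 = F.Φ p p v v := by
    rw [he1]
    simp only [DP.Φ_add3, DP.Φ_add4, DP.Φ_smul3, DP.Φ_smul4]
    rw [DP.Φ_s34 F p p v p, h0, hv]; ring
  have a3 : F.Φ p e1 e1 e1 = 0 := by
    rw [he1]
    simp only [DP.Φ_add2, DP.Φ_add3, DP.Φ_add4, DP.Φ_smul2, DP.Φ_smul3, DP.Φ_smul4]
    simp only [DP.Φ_s34 F _ _ v p, DP.Φ_s23 F _ v p, h0, hv]
    linear_combination hα
  have hd1 : DP.dt p e1 e = DP.dt p v e := by
    rw [he1]; simp only [DP.dt, Pi.add_apply, Pi.smul_apply, smul_eq_mul]; ring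
  obtain ⟨μ, hμ⟩ : ∃ μ, μ * F.Φ p p e1 e1 = - F.Φ p p e1 e :=
    ⟨- F.Φ p p e1 e / F.Φ p p e1 e1, by rw [div_mul_cancel₀]; rw [a2]; exact ha⟩
  set e' : Fin 3 → k := e + μ • e1 with he'
  set e2 : Fin 3 → k := e' + (-2 * F.Φ p p e' e') • p with he2
  have b0 : 4 * F.Φ p p p e' = 1 := by
    rw [he', DP.Φ_add4, DP.Φ_smul4, a1]; linear_combination he
  have b1 : 4 * F.Φ p p p e2 = 1 := by
    rw [he2, DP.Φ_add4, DP.Φ_smul4, h0]; linear_combination b0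
  have b2 : F.Φ p p e1 e2 = 0 := by
    rw [he2, DP.Φ_add4, DP.Φ_smul4, DP.Φ_s34 F p p e1 p, a1, he', DP.Φ_add4, DP.Φ_smul4]
    linear_combination hμ
  have b3 : F.Φ p p e2 e2 = 0 := by
    rw [he2]
    generalize hβ : F.Φ p p e' e' = β
    simp only [DP.Φ_add3, DP.Φ_add4, DP.Φ_smul3, DP.Φ_smul4]
    rw [DP.Φ_s34 F p p e' p, h0, hβ]
    linear_combination (-β) * b0
  have hd2 : DP.dt p e1 e2 = DP.dt p v e := by
    rw [← hd1, he2, he']; simp only [DP.dt, Pi.add_apply, Pi.smul_apply, smul_eq_mul]; ring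
  refine DP.caseIII_core F hF p e1 e2 h0 a1 b1 b2 b3 a3 (by rw [a2]; exact ha)
      (by rw [hd2]; exact hd) ?_
  rintro ⟨-, c2, -⟩
  apply hJ
  have c3 : F.Φ e1 e1 e1 e2 = F.Φ e1 e1 e1 e + μ * F.Φ e1 e1 e1 e1 := by
    rw [he2, DP.Φ_add4, DP.Φ_smul4, DP.Φ_s34 F e1 e1 e1 p, DP.Φ_s23 F e1 e1 p e1,
      DP.Φ_s12 F e1 p e1 e1, a3, he', DP.Φ_add4, DP.Φ_smul4]
    ring
  have c4 : F.Φ e1 e1 e1 b = 4 * F.Φ p p p b * F.Φ e1 e1 e1 e := by
    rw [hedef, DP.Φ_smul4]; linear_combination (-F.Φ e1 e1 e1 b) * ht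
  have c5 : F.Φ p p e1 b = 4 * F.Φ p p p b * F.Φ p p e1 e := by
    rw [hedef, DP.Φ_smul4]; linear_combination (-F.Φ p p e1 b) * ht
  rw [hEe]
  simp only [DP.Φ_smul1, DP.Φ_smul2, DP.Φ_smul3, DP.Φ_smul4]
  rw [c4, c5]
  rw [c2] at c3
  have c6 : F.Φ p p e1 e1 * F.Φ e1 e1 e1 e - F.Φ e1 e1 e1 e1 * F.Φ p p e1 e = 0 := by
    linear_combination (-F.Φ p p e1 e1) * c3 - F.Φ e1 e1 e1 e1 * hμ
  linear_combination (3 * F.Φ p p v v) ^ 5 * (4 * F.Φ p p p b) * c6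

end three

variable {k : Type u} [Field k] {n : ℕ}

theorem lin_sub {K A : Type*} [Field K] [CommRing A] [Algebra K A]
    (s : Fin 3 → Fin n → K) (x y : Fin 3 → A) : lin s (x - y) = lin s x - lin s y := by
  unfold lin
  simp only [Pi.sub_apply, sub_smul, Finset.sum_sub_distrib]

theorem lin_smul {K A : Type*} [Field K] [CommRing A] [Algebra K A]
    (s : Fin 3 → Fin n → K) (r : A) (x : Fin 3 → A) : lin s (r • x) = r • lin s x := by
  unfold lin
  simp only [Pi.smul_apply, smul_eq_mul, mul_smul, Finset.smul_sum]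

theorem hasCurve_branch [CharZero k] (F : QT n k) (hF : F.Sm) (hn : 4 ≤ n) (p : Fin n → k)
    (hp : p ≠ 0) (h0 : F.Φ p p p p = 0) (v1 : Fin n → k) (hv : F.Φ p p p v1 = 0)
    (ha : F.Φ p p v1 v1 ≠ 0) : DP.HasCurve (restr F (gen p)) := by
  obtain ⟨f, hf⟩ : ∃ f : MvPolynomial (Fin n ⊕ Fin n) k →ₐ[k] KK k n,
      f = IsScalarTower.toAlgHom k (MvPolynomial (Fin n ⊕ Fin n) k) (KK k n) := ⟨_, rfl⟩
  have hfinj : Function.Injective f := by
    rw [hf]; exact IsFractionRing.injective (MvPolynomial (Fin n ⊕ Fin n) k) (KK k n)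
  have hfg : ∀ a, (fun i => f (genR p a i)) = gen p a := by
    intro a; ext1 i; rw [hf]; exact genR_map p a i
  have hls : ∀ a, lin (gen p) (Pi.single a (1 : KK k n) : Fin 3 → KK k n) = gen p a := by
    intro a; rw [lin_single]; rfl
  -- the obstruction over the field
  obtain ⟨P, hP⟩ : ∃ P, P = gen p 0 := ⟨_, rfl⟩
  obtain ⟨U, hU⟩ : ∃ U, U = gen p 1 := ⟨_, rfl⟩
  obtain ⟨V, hV⟩ : ∃ V, V = gen p 2 := ⟨_, rfl⟩
  have hJ : J F P (JD F P U V) V ≠ 0 := by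
    intro h
    apply J_ne F hF hn p hp h0 v1 hv ha
    apply hfinj
    rw [map_zero, J_map, JD_map, hfg, hfg, hfg, ← hP, ← hU, ← hV]
    exact h
  have hP4 : F.Φ P P P P = 0 := by
    have := Φ_map F (genR p 0) (genR p 0) (genR p 0) (genR p 0) f
    rw [hfg, ← hP] at this
    rw [← this]
    have h1 := Φ_map F p p p p (Algebra.ofId k (MvPolynomial (Fin n ⊕ Fin n) k))
    rw [h0, map_zero] at h1
    have h2 : F.Φ (genR p 0) (genR p 0) (genR p 0) (genR p 0) = 0 := h1.symm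
    rw [h2, map_zero]
  obtain ⟨Y, hY⟩ : ∃ Y, Y = JD F P U V := ⟨_, rfl⟩
  rw [← hY] at hJ
  have hPY : F.Φ P P P Y = 0 := by
    rw [hY]; unfold JD
    rw [Φ_sub4, Φ_smul4, Φ_smul4]; ring
  have hPPYY : F.Φ P P Y Y ≠ 0 := by
    intro h
    apply hJ
    have hE : JE F P Y = (-F.Φ P Y Y Y) • P := by
      unfold JE
      rw [h, mul_zero, zero_smul, zero_sub, neg_smul]
    unfold J
    rw [hE]
    simp only [Φ_smul1, Φ_smul2, Φ_smul3, Φ_smul4, hP4]
    ring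
  have hPV : F.Φ P P P V ≠ 0 := by
    intro h
    have h1 : F.Φ (genR p 0) (genR p 0) (genR p 0) (genR p 2) = 0 := by
      apply hfinj
      rw [map_zero, Φ_map, hfg, hfg, ← hP, ← hV]
      exact h
    have h2 : ∀ z : Fin n → k, F.Φ p p p z = 0 := by
      intro z
      let g : MvPolynomial (Fin n ⊕ Fin n) k →ₐ[k] k := aeval (Sum.elim 0 z)
      have g0 : (fun i => g (genR p 0 i)) = p := by
        ext1 i
        change g (C (p i)) = p i
        simp only [g, algHom_C]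
        rfl
      have g2 : (fun i => g (genR p 2 i)) = z := by
        ext1 i
        change g (X (Sum.inr i)) = _
        simp [g]
      have h3 := congrArg g h1
      rw [map_zero, Φ_map, g0, g2] at h3
      exact h3
    apply hp
    have h4 : (fun i => algebraMap k (AlgebraicClosure k) (p i)) = 0 := by
      apply hF
      intro i
      have h5 := lift_Φ F p p p (Pi.single i 1) (AlgebraicClosure k)
      rw [h2, map_zero] at h5
      rw [← h5]
      congr 1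
      ext1 j
      simp only [Pi.single_apply]
      split_ifs <;> simp
    ext i
    have := congrFun h4 i
    exact (map_eq_zero _).mp this
  obtain ⟨x0, hx0⟩ : ∃ x0 : Fin 3 → KK k n, x0 = Pi.single 0 1 := ⟨_, rfl⟩
  obtain ⟨x1, hx1⟩ : ∃ x1 : Fin 3 → KK k n, x1 = Pi.single 1 1 := ⟨_, rfl⟩
  obtain ⟨x2, hx2⟩ : ∃ x2 : Fin 3 → KK k n, x2 = Pi.single 2 1 := ⟨_, rfl⟩
  have l0 : lin (gen p) x0 = P := by rw [hx0, hls, hP]
  have l1 : lin (gen p) x1 = U := by rw [hx1, hls, hU]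
  have l2 : lin (gen p) x2 = V := by rw [hx2, hls, hV]
  obtain ⟨y, hy⟩ : ∃ y : Fin 3 → KK k n, y = F.Φ P P P V • x1 - F.Φ P P P U • x2 := ⟨_, rfl⟩
  have ly : lin (gen p) y = Y := by
    rw [hy, lin_sub, lin_smul, lin_smul, l1, l2, hY]; rfl
  have lE : lin (gen p) ((3 * (restr F (gen p)).Φ x0 x0 y y) • y
      - (restr F (gen p)).Φ x0 y y y • x0) = JE F P Y := by
    rw [lin_sub, lin_smul, lin_smul, restr_Φ, restr_Φ, l0, ly]; rfl
  refine caseIII_gen (restr F (gen p)) (plane_Sm F hF p hn hp) x0 y x2 ?_ ?_ ?_ ?_ ?_ _ rfl ?_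
  · intro h
    have := congrFun h 0
    rw [hx0] at this
    simp at this
  · rw [restr_Φ, l0]; exact hP4
  · rw [restr_Φ, l0, ly]; exact hPY
  · rw [restr_Φ, l0, ly]; exact hPPYY
  · rw [restr_Φ, l0, l2]; exact hPV
  · simp only [restr_Φ] at lE ⊢
    rw [lE, l0, l2]
    exact hJ

end Pool.Agent.Work.MP_d5a5f5_ag.DS
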