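import Pool.Agent.Work.MP_d5a5f5_ag.DS.Defs
import Pool.Agent.Work.MP_d5a5f5_ag.DS.GenIII

/-!
Double covers of projective space branched in a quartic hypersurface: the final theorem.
-/

namespace Pool.Agent.Work.MP_d5a5f5_ag.DS

open MvPolynomial

universe u

section branch

variable {k : Type u} [Field k] {n : ℕ}

theorem hasCurve_point [CharZero k] (F : QT n k) (hF : F.Sm) (hn : 4 ≤ n) (p : Fin n → k)
    (hp : p ≠ 0) (w : k) (hw : F.Φ p p p p = w ^ 2) (hw0 : w ≠ 0) :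
    DP.HasCurve (restr F (gen p)) := by
  have hS := plane_Sm F hF p hn hp
  obtain ⟨x0, hx0⟩ : ∃ x0 : Fin 3 → KK k n, x0 = Pi.single 0 1 := ⟨_, rfl⟩
  have l0 : lin (gen p) x0 = gen p 0 := by rw [hx0, lin_single]; rfl
  have h1 : (restr F (gen p)).Φ x0 x0 x0 x0 = (algebraMap k (KK k n) w) ^ 2 := by
    rw [restr_Φ, l0, ← map_pow, ← hw]
    exact lift_Φ F p p p p (KK k n)
  have h2 : algebraMap k (KK k n) w ≠ 0 := (map_ne_zero _).mpr hw0
  by_cases hc : ∃ a, DP.ct (restr F (gen p)) (algebraMap k (KK k n) w) x0 a ≠ 0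
  · obtain ⟨a, ha⟩ := hc
    exact DP.caseI _ hS x0 _ h1 h2 a ha
  · push Not at hc
    exact DP.caseII _ hS x0 _ h2 h1 hc

theorem main_curve [CharZero k] (F : QT n k) (hF : F.Sm) (hn : 4 ≤ n) (p : Fin n → k)
    (hp : p ≠ 0) (w : k) (hw : F.Φ p p p p = w ^ 2)
    (h : w ≠ 0 ∨ ∃ (v : Fin n → k) (s : k), F.Φ p p p v = 0 ∧
      F.Φ (v + s • p) (v + s • p) (v + s • p) (v + s • p) ≠ F.Φ v v v v) :
    ∃ q : Fin n → k, q ≠ 0 ∧ DP.HasCurve (restr F (gen q)) := by
  by_cases hw0 : w = 0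
  · rcases h with h | ⟨v, s, hv, hvs⟩
    · exact absurd hw0 h
    · have h0 : F.Φ p p p p = 0 := by rw [hw, hw0]; ring
      by_cases hc : ∃ v1, F.Φ p p p v1 = 0 ∧ F.Φ p p v1 v1 ≠ 0
      · obtain ⟨v1, h1, h2⟩ := hc
        exact ⟨p, hp, hasCurve_branch F hF hn p hp h0 v1 h1 h2⟩
      · push Not at hc
        have ha := hc v hv
        have hexp : ∀ t : k, F.Φ (v + t • p) (v + t • p) (v + t • p) (v + t • p) =
            F.Φ v v v v + 4 * t * F.Φ p v v v := by
          intro t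
          simp only [Φ_add1, Φ_add2, Φ_add3, Φ_add4, Φ_smul1, Φ_smul2, Φ_smul3, Φ_smul4]
          simp only [Φ_s12 F v p, Φ_s23 F _ v p, Φ_s34 F _ _ v p, h0, hv, ha]
          ring
        have hd : F.Φ p v v v ≠ 0 := by
          intro hd
          apply hvs
          rw [hexp, hd]; ring
        obtain ⟨t, ht⟩ : ∃ t : k, F.Φ v v v v + 4 * t * F.Φ p v v v = 1 :=
          ⟨(1 - F.Φ v v v v) / (4 * F.Φ p v v v), by field_simp; ring⟩
        have h1 : F.Φ (v + t • p) (v + t • p) (v + t • p) (v + t • p) = 1 ^ 2 := by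
          rw [hexp, ht]; ring
        have hq : v + t • p ≠ 0 := by
          intro hq
          rw [hq, Φ_zero1] at h1
          simp at h1
        exact ⟨_, hq, hasCurve_point F hF hn _ hq 1 h1 one_ne_zero⟩
  · exact ⟨p, hp, hasCurve_point F hF hn p hp w hw hw0⟩

end branch

variable {k : Type u} [Field k] {n : ℕ}

/-- division by `w² - Q` -/
theorem division (Q : MvPolynomial (Fin n) k) (H : MvPolynomial (Fin (n + 1)) k) :
    ∃ A B : MvPolynomial (Fin n) k, ∀ {R : Type u} [CommRing R] [Algebra k R] (x : Fin n → R)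
      (w : R), w ^ 2 = aeval x Q → aeval (Fin.cons w x : Fin (n + 1) → R) H =
        aeval x A + aeval x B * w := by
  induction H using MvPolynomial.induction_on with
  | C c => exact ⟨C c, 0, by intro R _ _ x w _; simp [algHom_C]⟩
  | add p q hp hq =>
    obtain ⟨A, B, h1⟩ := hp
    obtain ⟨A', B', h2⟩ := hq
    refine ⟨A + A', B + B', ?_⟩
    intro R _ _ x w hw
    rw [map_add, h1 x w hw, h2 x w hw, map_add, map_add]; ring
  | mul_X p i hp =>
    obtain ⟨A, B, h1⟩ := hp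
    refine Fin.cases ?_ (fun j => ?_) i
    · refine ⟨B * Q, A, ?_⟩
      intro R _ _ x w hw
      rw [map_mul, h1 x w hw, aeval_X, Fin.cons_zero, map_mul, ← hw]; ring
    · refine ⟨A * X j, B * X j, ?_⟩
      intro R _ _ x w hw
      rw [map_mul, h1 x w hw, aeval_X, Fin.cons_succ, map_mul, map_mul, aeval_X]; ring

theorem exists_quartic {L : Type*} [Field L] [IsAlgClosed L] (a b c d e : L) (ha : a ≠ 0) :
    ∃ s : L, a * s ^ 4 + b * s ^ 3 + c * s ^ 2 + d * s + e = 0 := by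
  let P : Polynomial L := Polynomial.C a * Polynomial.X ^ 4 + Polynomial.C b * Polynomial.X ^ 3
    + Polynomial.C c * Polynomial.X ^ 2 + Polynomial.C d * Polynomial.X + Polynomial.C e
  have hdeg : P.natDegree = 4 := by
    simp only [P]
    compute_degree!
  obtain ⟨r, hr⟩ := IsAlgClosed.exists_root P (by
    intro h0
    have h1 : P.natDegree = 0 :=
      Polynomial.natDegree_eq_of_degree_eq_some (n := 0) (by simpa using h0)
    rw [hdeg] at h1
    norm_num at h1)
  refine ⟨r, ?_⟩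
  have h1 : Polynomial.eval r P = 0 := hr
  simpa only [P, Polynomial.eval_add, Polynomial.eval_mul, Polynomial.eval_pow,
    Polynomial.eval_X, Polynomial.eval_C] using h1

/-- the quartic form has a nontrivial zero -/
theorem exists_zero (F : QT n k) {L : Type*} [Field L] [IsAlgClosed L] [Algebra k L]
    (hn : 4 ≤ n) : ∃ x : Fin n → L, x ≠ 0 ∧ F.Φ x x x x = 0 := by
  obtain ⟨i0, i1, hi⟩ : ∃ i0 i1 : Fin n, i0 ≠ i1 :=
    ⟨⟨0, by omega⟩, ⟨1, by omega⟩, by simp [Fin.ext_iff]⟩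
  obtain ⟨e0, he0⟩ : ∃ e0 : Fin n → L, e0 = Pi.single i0 1 := ⟨_, rfl⟩
  obtain ⟨e1, he1⟩ : ∃ e1 : Fin n → L, e1 = Pi.single i1 1 := ⟨_, rfl⟩
  by_cases h : F.Φ e0 e0 e0 e0 = 0
  · refine ⟨e0, fun h0 => ?_, h⟩
    have := congrFun h0 i0
    rw [he0] at this
    simp at this
  · obtain ⟨r, h1⟩ := exists_quartic (F.Φ e0 e0 e0 e0) (4 * F.Φ e0 e0 e0 e1)
      (6 * F.Φ e0 e0 e1 e1) (4 * F.Φ e0 e1 e1 e1) (F.Φ e1 e1 e1 e1) h
    refine ⟨r • e0 + e1, fun h0 => ?_, ?_⟩
    · have := congrFun h0 i1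
      rw [he0, he1] at this
      simp [hi.symm] at this
    · simp only [Φ_add1, Φ_add2, Φ_add3, Φ_add4, Φ_smul1, Φ_smul2, Φ_smul3, Φ_smul4]
      simp only [Φ_s12 F e1 e0, Φ_s23 F _ e1 e0, Φ_s34 F _ _ e1 e0]
      linear_combination h1

theorem Sm_of_smooth [CharZero k] {F : QT n k} {Q : MvPolynomial (Fin n) k}
    (h : Q = F.Φ (fun i => (X i : MvPolynomial (Fin n) k)) (fun i => X i)
      (fun i => X i) (fun i => X i)) (hs : Smooth Q) : F.Sm := by
  intro x hx
  refine hs x fun i => ?_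
  rw [aeval_pderiv_tensor h, hx i, mul_zero]

/-- `Q` is not a square -/
theorem not_sq {F : QT n k} {Q : MvPolynomial (Fin n) k}
    (h : Q = F.Φ (fun i => (X i : MvPolynomial (Fin n) k)) (fun i => X i)
      (fun i => X i) (fun i => X i)) (hs : Smooth Q) (hn : 4 ≤ n)
    (c : MvPolynomial (Fin n) k) : c ^ 2 ≠ Q := by
  intro hc
  obtain ⟨x, hx, hx0⟩ := exists_zero F (L := AlgebraicClosure k) hn
  apply hx
  refine hs x fun i => ?_
  have h1 : aeval x c ^ 2 = 0 := by rw [← map_pow, hc, aeval_tensor h, hx0]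
  have h2 := pow_eq_zero_iff (two_ne_zero) |>.mp h1
  rw [← hc, pow_two, pderiv_mul, map_add, map_mul, map_mul, h2]
  ring

theorem unirational_of_curve [CharZero k] {F : QT n k} {Q : MvPolynomial (Fin n) k}
    (h : Q = F.Φ (fun i => (X i : MvPolynomial (Fin n) k)) (fun i => X i)
      (fun i => X i) (fun i => X i)) (hs : Smooth Q) (hn : 4 ≤ n) (p : Fin n → k) (hp : p ≠ 0)
    (hc : DP.HasCurve (restr F (gen p))) : Unirational Q := by
  obtain ⟨m, g, f, hg, hf⟩ := descent F (Sm_of_smooth h hs) p hn hp hc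
  refine ⟨m, g, f, ?_, by rw [aeval_tensor h]; exact hg, ?_⟩
  · rintro rfl
    have := hf (X ⟨0, by omega⟩) (by simp)
    exact X_ne_zero _ this
  · intro d H _ hH w' x hx
    obtain ⟨A, B, hAB⟩ := division Q H
    rw [hAB f g (by rw [aeval_tensor h]; exact hg)] at hH
    have h1 : aeval f (A ^ 2 - B ^ 2 * Q) = 0 := by
      rw [map_sub, map_mul, map_pow, map_pow, aeval_tensor h, ← hg]
      linear_combination (aeval f A - aeval f B * g) * hH
    have h2 := hf _ h1
    have h3 : A ^ 2 = B ^ 2 * Q := sub_eq_zero.mp h2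
    have hB : B = 0 := by
      by_contra hB
      have h4 : B ^ 2 ∣ A ^ 2 := ⟨Q, h3⟩
      have h5 : B ∣ A := (IsIntegrallyClosed.pow_dvd_pow_iff (two_ne_zero)).mp h4
      obtain ⟨c, hc⟩ := h5
      apply not_sq h hs hn c
      apply mul_left_cancel₀ (pow_ne_zero 2 hB)
      rw [← h3, hc]; ring
    have hA : A = 0 := by
      rw [hB] at h3
      have : A ^ 2 = 0 := by rw [h3]; ring
      exact pow_eq_zero_iff (two_ne_zero) |>.mp this
    rw [hAB x w' hx, hA, hB]
    simp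

theorem main [CharZero k] (hn : 4 ≤ n) (Q : MvPolynomial (Fin n) k) (hQ : Q.IsHomogeneous 4)
    (hs : Smooth Q) (p : Fin n → k) (w : k) (hp : p ≠ 0) (hw : w ^ 2 = aeval p Q)
    (h : w ≠ 0 ∨ ¬ StarPoint Q p) : Unirational Q := by
  obtain ⟨F, hF⟩ := exists_tensor Q hQ
  have hSm := Sm_of_smooth hF hs
  rw [aeval_tensor hF] at hw
  obtain ⟨q, hq, hc⟩ := main_curve F hSm hn p hp w hw.symm (h.imp id (by
    intro h
    unfold StarPoint at h
    push Not at h
    obtain ⟨v, s, hv, hvs⟩ := h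
    refine ⟨v, s, ?_, ?_⟩
    · have h4 : (4 : k) * F.Φ p p p v = 0 := by
        rw [Φ_basis, Finset.mul_sum, ← hv]
        refine Finset.sum_congr rfl fun i _ => ?_
        rw [aeval_pderiv_tensor hF]; ring
      exact (mul_eq_zero.mp h4).resolve_left (by norm_num)
    · rwa [aeval_tensor hF, aeval_tensor hF] at hvs))
  exact unirational_of_curve hF hs hn q hq hc

end Pool.Agent.Work.MP_d5a5f5_ag.DS
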