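import Pool.Agent.Work.MP_d5a5f5_ag.DS.Descent

/-!
The generic plane section through a point of the branch hypersurface has no involution.
-/

namespace Pool.Agent.Work.MP_d5a5f5_ag.DS

universe u

variable {k : Type u} [Field k] {n : ℕ}

section J
variable (F : QT n k) {A : Type*} [CommRing A] [Algebra k A]

/-- the tangent vector in the plane of `p, u, v` -/
def JD (p u v : Fin n → A) : Fin n → A := F.Φ p p p v • u - F.Φ p p p u • v

/-- the centre, up to a factor -/
def JE (p y : Fin n → A) : Fin n → A := (3 * F.Φ p p y y) • y - F.Φ p y y y • p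

/-- the obstruction -/
def J (p y z : Fin n → A) : A :=
  F.Φ (JE F p y) (JE F p y) (JE F p y) z * F.Φ p p (JE F p y) (JE F p y)
    - F.Φ (JE F p y) (JE F p y) (JE F p y) (JE F p y) * F.Φ p p (JE F p y) z

variable {B : Type*} [CommRing B] [Algebra k B] (f : A →ₐ[k] B)

theorem JD_map (p u v : Fin n → A) : (fun i => f (JD F p u v i)) =
    JD F (fun i => f (p i)) (fun i => f (u i)) (fun i => f (v i)) := by
  ext1 i
  simp only [JD, Pi.sub_apply, Pi.smul_apply, smul_eq_mul, map_sub, map_mul, Φ_map]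

theorem JE_map (p y : Fin n → A) : (fun i => f (JE F p y i)) =
    JE F (fun i => f (p i)) (fun i => f (y i)) := by
  ext1 i
  simp only [JE, Pi.sub_apply, Pi.smul_apply, smul_eq_mul, map_sub, map_mul, Φ_map, map_ofNat]

theorem J_map (p y z : Fin n → A) :
    f (J F p y z) = J F (fun i => f (p i)) (fun i => f (y i)) (fun i => f (z i)) := by
  simp only [J, map_sub, map_mul, Φ_map, JE_map]

theorem JE_smul (p y : Fin n → A) (r : A) : JE F p (r • y) = r ^ 3 • JE F p y := by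
  ext1 i
  simp only [JE, Pi.sub_apply, Pi.smul_apply, smul_eq_mul, Φ_smul2, Φ_smul3, Φ_smul4]
  ring

theorem J_smul (p y z : Fin n → A) (r : A) : J F p (r • y) z = r ^ 15 * J F p y z := by
  simp only [J, JE_smul, Φ_smul1, Φ_smul2, Φ_smul3, Φ_smul4]
  ring

theorem J_add (p y z z' : Fin n → A) : J F p y (z + z') = J F p y z + J F p y z' := by
  simp only [J, Φ_add4]; ring

end J

section ODE
open Polynomial

/-- if `a f' = 5 a' f` then `f` is a multiple of `a⁵` -/
theorem ode {L : Type*} [Field L] [CharZero L] (a f : L[X]) (ha : a ≠ 0)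
    (h : a * derivative f = 5 * derivative a * f) : ∃ κ : L, f = C κ * a ^ 5 := by
  obtain ⟨s, hs⟩ : ∃ s : L, eval s a ≠ 0 := by
    by_contra hall
    push Not at hall
    exact ha (Polynomial.funext (by simpa using hall))
  set κ : L := eval s f / eval s a ^ 5 with hκ
  refine ⟨κ, ?_⟩
  by_contra hne
  set r : L[X] := f - C κ * a ^ 5 with hr
  have hr0 : r ≠ 0 := sub_ne_zero.mpr hne
  have h1 : a * derivative r = 5 * derivative a * r := by
    rw [hr, derivative_sub, derivative_C_mul, derivative_pow]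
    simp only [Nat.cast_ofNat, map_ofNat]
    linear_combination h
  have h2 : eval s r = 0 := by
    rw [hr, eval_sub, eval_mul, eval_C, eval_pow, hκ, div_mul_cancel₀ _ (pow_ne_zero 5 hs),
      sub_self]
  obtain ⟨q, hq, hq0⟩ := Polynomial.exists_eq_pow_rootMultiplicity_mul_and_not_dvd r hr0 s
  set m := rootMultiplicity s r with hm
  have hm0 : m ≠ 0 := by
    have := (rootMultiplicity_pos hr0).mpr h2
    omega
  obtain ⟨m', hm'⟩ := Nat.exists_eq_succ_of_ne_zero hm0
  rw [hm'] at hq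
  have h3 : a * (((m' : L[X]) + 1) * q + (X - C s) * derivative q) =
      5 * derivative a * ((X - C s) * q) := by
    have h4 : (X - C s) ^ m' ≠ 0 := pow_ne_zero _ (X_sub_C_ne_zero s)
    apply mul_left_cancel₀ h4
    have h5 : derivative r = (X - C s) ^ m' * (((m' : L[X]) + 1) * q + (X - C s) * derivative q) := by
      rw [hq, derivative_mul, derivative_pow]
      simp only [Nat.succ_eq_add_one, Nat.cast_add, Nat.cast_one, add_tsub_cancel_right,
        derivative_sub, derivative_X, derivative_C, sub_zero, mul_one, map_add, map_natCast,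
        map_one]
      ring
    rw [h5] at h1
    rw [hq, Nat.succ_eq_add_one, pow_succ] at h1
    linear_combination h1
  have h6 := congrArg (eval s) h3
  simp only [eval_mul, eval_add, eval_sub, eval_X, eval_C, sub_self, zero_mul, add_zero, mul_zero,
    eval_natCast, eval_one] at h6
  rcases mul_eq_zero.mp h6 with h7 | h7
  · exact hs h7
  · rcases mul_eq_zero.mp h7 with h8 | h8
    · exact (Nat.cast_add_one_ne_zero m') h8
    · exact hq0 (dvd_iff_isRoot.mpr h8)

end ODE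

section core
open Polynomial

variable (F : QT n k)

/-- the key computation on a line of tangent vectors -/
theorem line_core {L : Type*} [Field L] [CharZero L] [Algebra k L] (p y0 y1 : Fin n → L)
    (hp : F.Φ p p p p = 0) (hy0 : F.Φ p p p y0 = 0) (hy1 : F.Φ p p p y1 = 0)
    (h00 : F.Φ p p y0 y0 = 0) (h11 : F.Φ p p y1 y1 ≠ 0) (z0 : Fin n → L) (hz0 : F.Φ p p p z0 ≠ 0)
    (hJ : ∀ z : Fin n → L, J F (fun i => C (p i)) (fun i => C (y0 i) + X * C (y1 i))
      (fun i => C (z i)) = 0) :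
    ∃ r c : L, r ≠ 0 ∧
      ∀ z, F.Φ (r • y0 - c • p) (r • y0 - c • p) (r • y0 - c • p) z = 0 := by
  set P : Fin n → L[X] := fun i => C (p i) with hP
  set Y1 : Fin n → L[X] := fun i => C (y1 i) with hY1
  set Y : Fin n → L[X] := fun i => C (y0 i) + X * C (y1 i) with hY
  have hYe : Y = (fun i => C (y0 i)) + (X : L[X]) • Y1 := rfl
  have ΦC : ∀ a b c d : Fin n → L, F.Φ (fun i => C (a i)) (fun i => C (b i)) (fun i => C (c i))
      (fun i => C (d i)) = C (F.Φ a b c d) := by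
    intro a b c d
    have := Φ_map F a b c d ((Algebra.ofId L L[X]).restrictScalars k)
    exact this.symm
  have p0 : F.Φ P P P P = 0 := by rw [hP, ΦC, hp, C_0]
  have p1 : F.Φ P P P Y1 = 0 := by rw [hP, hY1, ΦC, hy1, C_0]
  have p2 : F.Φ P P P Y = 0 := by
    rw [hYe, Φ_add4, Φ_smul4, p1, mul_zero, add_zero, hP, ΦC, hy0, C_0]
  obtain ⟨a, ha⟩ : ∃ a, a = F.Φ P P Y Y := ⟨_, rfl⟩
  obtain ⟨c, hc⟩ : ∃ c, c = F.Φ P Y Y Y := ⟨_, rfl⟩
  obtain ⟨E, hE⟩ : ∃ E, E = (3 * a) • Y - c • P := ⟨_, rfl⟩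
  have hEJ : JE F P Y = E := by rw [hE, ha, hc]; rfl
  obtain ⟨P1, hP1⟩ : ∃ P1, P1 = F.Φ E E E Y := ⟨_, rfl⟩
  -- values
  have v1 : F.Φ P P E E = 9 * a ^ 3 := by
    rw [hE]
    simp only [Φ_sub3, Φ_sub4, Φ_smul3, Φ_smul4, ← ha, Φ_s34 F P P Y P, p0, p2]
    ring
  have v2 : F.Φ E E E P = 0 := by
    have e : ∀ w : Fin n → L[X], F.Φ E E E w = 27 * a ^ 3 * F.Φ Y Y Y w
        - 27 * a ^ 2 * c * F.Φ P Y Y w + 9 * a * c ^ 2 * F.Φ P P Y w - c ^ 3 * F.Φ P P P w := by
      intro w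
      rw [hE]
      simp only [Φ_sub1, Φ_sub2, Φ_sub3, Φ_smul1, Φ_smul2, Φ_smul3]
      simp only [Φ_s12 F Y P, Φ_s23 F _ Y P]
      ring
    rw [e, Φ_s34 F Y Y Y P, Φ_s23 F Y Y P Y, Φ_s12 F Y P Y Y, ← hc, Φ_s34 F P Y Y P,
      Φ_s23 F P Y P Y, ← ha, Φ_s34 F P P Y P, p2, p0]
    ring
  have v3 : F.Φ E E E E = 3 * a * P1 := by
    have : F.Φ E E E E = F.Φ E E E ((3 * a) • Y - c • P) := by rw [← hE]
    rw [this, Φ_sub4, Φ_smul4, Φ_smul4, v2, ← hP1]; ring
  have v4 : ∀ z, F.Φ P P E z = 3 * a * F.Φ P P Y z - c * F.Φ P P P z := by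
    intro z
    rw [hE, Φ_sub3, Φ_smul3, Φ_smul3]
  have v5 : ∀ z : Fin n → L, F.Φ E E E (fun i => C (z i)) * (9 * a ^ 3) =
      3 * a * P1 * (3 * a * F.Φ P P Y (fun i => C (z i)) - c * F.Φ P P P (fun i => C (z i))) := by
    intro z
    have := hJ z
    unfold J at this
    rw [hEJ, v1, v3, v4] at this
    linear_combination this
  -- `a` is not zero
  obtain ⟨α, hα⟩ : ∃ α, α = F.Φ p p y0 y1 := ⟨_, rfl⟩
  obtain ⟨β, hβ⟩ : ∃ β, β = F.Φ p p y1 y1 := ⟨_, rfl⟩
  rw [← hβ] at h11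
  have ha1 : a = X * (C (2 * α) + X * C β) := by
    rw [ha, hYe]
    simp only [Φ_add3, Φ_add4, Φ_smul3, Φ_smul4, hP, hY1, ΦC, h00]
    rw [Φ_s34 F p p y1 y0, ← hα, ← hβ]
    simp only [C_0, C_mul, map_ofNat]
    ring
  have ha0 : a ≠ 0 := by
    intro h
    rw [ha1] at h
    have := congrArg (fun q => coeff q 2) h
    simp only [mul_add, coeff_add, coeff_zero, ← mul_assoc, coeff_X_mul] at this
    simp [coeff_X] at this
    exact h11 this
  have h3 : (3 : L[X]) ≠ 0 := by
    have : (3 : L[X]) = C 3 := (map_ofNat C 3).symm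
    rw [this]; simp
  have h9 : (9 : L[X]) ≠ 0 := by
    have : (9 : L[X]) = C 9 := (map_ofNat C 9).symm
    rw [this]; simp
  have v6 : a * F.Φ E E E Y1 = P1 * F.Φ P P Y Y1 := by
    have := v5 y1
    change F.Φ E E E Y1 * (9 * a ^ 3) = 3 * a * P1 * (3 * a * F.Φ P P Y Y1 - c * F.Φ P P P Y1)
      at this
    rw [p1] at this
    apply mul_left_cancel₀ (mul_ne_zero h9 (pow_ne_zero 2 ha0))
    linear_combination this
  -- derivatives
  let δ : Derivation k L[X] L[X] := (derivative' (R := L)).restrictScalars k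
  have dδ : ∀ q : L[X], δ q = derivative q := fun q => rfl
  have dP : (fun i => δ (P i)) = 0 := by ext1 i; exact derivative_C
  have dY : (fun i => δ (Y i)) = Y1 := by
    ext1 i
    rw [dδ]
    simp [hY, hY1]
  have da : derivative a = 2 * F.Φ P P Y Y1 := by
    rw [← dδ, ha, Φ_der, dP, dY, Φ_zero1, Φ_zero2, Φ_s34 F P P Y1 Y]; ring
  have dE : (fun i => δ (E i)) = (3 * derivative a) • Y + (3 * a) • Y1 - derivative c • P := by
    ext1 i
    have e1 := congrFun dP i
    have e2 := congrFun dY i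
    have e3 : δ (3 : L[X]) = 0 := by
      have : (3 : L[X]) = ((3 : ℕ) : L[X]) := rfl
      rw [this]; exact δ.map_natCast 3
    have e4 : E i = 3 * a * Y i - c * P i := by rw [hE]; rfl
    change δ (E i) = 3 * derivative a * Y i + 3 * a * Y1 i - derivative c * P i
    have e1' : δ (P i) = 0 := e1
    have e2' : δ (Y i) = Y1 i := e2
    rw [e4, map_sub, Derivation.leibniz, Derivation.leibniz, Derivation.leibniz, e1', e2', e3]
    simp only [smul_eq_mul, dδ]
    ring
  have hode : a * derivative P1 = 5 * derivative a * P1 := by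
    have e1 : δ (F.Φ E E E E) = 4 * F.Φ E E E (fun i => δ (E i)) := by
      rw [Φ_der, Φ_s12 F (fun i => δ (E i)) E, Φ_s23 F E (fun i => δ (E i)) E,
        Φ_s34 F E E (fun i => δ (E i)) E]
      ring
    rw [v3, dE, Φ_sub4, Φ_add4, Φ_smul4, Φ_smul4, Φ_smul4, v2, ← hP1] at e1
    have e3 : δ (3 : L[X]) = 0 := by
      have : (3 : L[X]) = ((3 : ℕ) : L[X]) := rfl
      rw [this]; exact δ.map_natCast 3
    rw [Derivation.leibniz, Derivation.leibniz, e3] at e1
    simp only [smul_eq_mul, dδ] at e1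
    apply mul_left_cancel₀ h3
    linear_combination e1 + 12 * v6 - 6 * P1 * da
  obtain ⟨κ, hκ⟩ := ode a P1 ha0 hode
  have hmain : ∀ z : Fin n → L, 3 * F.Φ E E E (fun i => C (z i)) = C κ * a ^ 3 *
      (3 * a * F.Φ P P Y (fun i => C (z i)) - c * F.Φ P P P (fun i => C (z i))) := by
    intro z
    have := v5 z
    rw [hκ] at this
    apply mul_left_cancel₀ (mul_ne_zero h3 (pow_ne_zero 3 ha0))
    linear_combination this
  -- evaluation at zero
  let ev : L[X] →ₐ[k] L := (aeval (0 : L) : L[X] →ₐ[L] L).restrictScalars k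
  have evC : ∀ b : L, ev (C b) = b := fun b => by
    change aeval (0 : L) (C b) = b
    simp
  have evX : ev X = 0 := by
    change aeval (0 : L) (X : L[X]) = 0
    simp
  have evP : (fun i => ev (P i)) = p := by ext1 i; exact evC _
  have evY : (fun i => ev (Y i)) = y0 := by
    ext1 i
    simp only [hY, map_add, map_mul, evC, evX, zero_mul, add_zero]
  have evz : ∀ z : Fin n → L, (fun i => ev (C (z i))) = z := fun z => by ext1 i; exact evC _
  obtain ⟨c0, hc0⟩ : ∃ c0, c0 = F.Φ p y0 y0 y0 := ⟨_, rfl⟩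
  obtain ⟨c1, hc1⟩ : ∃ c1, c1 = F.Φ p y0 y0 y1 := ⟨_, rfl⟩
  obtain ⟨c2, hc2⟩ : ∃ c2, c2 = F.Φ p y0 y1 y1 := ⟨_, rfl⟩
  obtain ⟨c3, hc3⟩ : ∃ c3, c3 = F.Φ p y1 y1 y1 := ⟨_, rfl⟩
  have hcx : c = C c0 + X * (C (3 * c1) + X * (C (3 * c2) + X * C c3)) := by
    rw [hc, hYe]
    simp only [Φ_add2, Φ_add3, Φ_add4, Φ_smul2, Φ_smul3, Φ_smul4, hP, hY1, ΦC]
    simp only [Φ_s34 F _ _ y1 y0, Φ_s23 F _ y1 y0]
    rw [← hc0, ← hc1, ← hc2, ← hc3]
    simp only [C_mul, map_ofNat]
    ring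
  -- first order
  have hc00 : c0 = 0 := by
    have h1 := congrArg ev (hmain z0)
    have h2 : ev a = 0 := by rw [ha1, map_mul, evX, zero_mul]
    rw [map_mul, map_mul, map_mul, map_pow, h2, Φ_map] at h1
    have h3' : (fun i => ev (E i)) = (-c0) • p := by
      ext1 i
      have e1 := congrFun evP i
      simp only [hE, Pi.sub_apply, Pi.smul_apply, smul_eq_mul, map_sub, map_mul, h2, e1]
      rw [hcx]
      simp only [map_add, map_mul, evC, evX]
      ring
    rw [h3', evz, Φ_smul1, Φ_smul2, Φ_smul3] at h1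
    have h4 : ev (3 : L[X]) = 3 := map_ofNat ev 3
    rw [h4] at h1
    have h5 : (3 * F.Φ p p p z0) * c0 ^ 3 = 0 := by linear_combination (-1) * h1
    rcases mul_eq_zero.mp h5 with h6 | h6
    · exact absurd h6 (mul_ne_zero (by norm_num) hz0)
    · exact pow_eq_zero_iff (three_ne_zero) |>.mp h6
  rw [hc00] at hcx
  have hX : (X : L[X]) ≠ 0 := X_ne_zero
  obtain ⟨cc, hcc⟩ : ∃ cc : L[X], cc = C (3 * c1) + X * (C (3 * c2) + X * C c3) := ⟨_, rfl⟩
  obtain ⟨aa, haa⟩ : ∃ aa : L[X], aa = C (2 * α) + X * C β := ⟨_, rfl⟩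
  rw [← hcc, C_0, zero_add] at hcx
  rw [← haa] at ha1
  obtain ⟨E1, hE1⟩ : ∃ E1, E1 = (3 * aa) • Y - cc • P := ⟨_, rfl⟩
  have hEE : E = (X : L[X]) • E1 := by
    rw [hE, hE1, ha1, hcx]
    ext1 i
    simp only [Pi.sub_apply, Pi.smul_apply, smul_eq_mul]
    ring
  have hmain1 : ∀ z : Fin n → L, 3 * F.Φ E1 E1 E1 (fun i => C (z i)) = C κ * aa ^ 3 * X *
      (3 * aa * F.Φ P P Y (fun i => C (z i)) - cc * F.Φ P P P (fun i => C (z i))) := by
    intro z
    have := hmain z
    rw [hEE, Φ_smul1, Φ_smul2, Φ_smul3, ha1, hcx] at this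
    apply mul_left_cancel₀ (pow_ne_zero 3 hX)
    linear_combination this
  have hev1 : ∀ z : Fin n → L, F.Φ ((6 * α) • y0 - (3 * c1) • p) ((6 * α) • y0 - (3 * c1) • p)
      ((6 * α) • y0 - (3 * c1) • p) z = 0 := by
    intro z
    have h1 := congrArg ev (hmain1 z)
    have h2 : (fun i => ev (E1 i)) = (6 * α) • y0 - (3 * c1) • p := by
      ext1 i
      have e1 := congrFun evP i
      have e2 := congrFun evY i
      have h4 : ev (3 : L[X]) = 3 := map_ofNat ev 3
      simp only [hE1, Pi.sub_apply, Pi.smul_apply, smul_eq_mul, map_sub, map_mul, e1, e2, h4]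
      rw [haa, hcc]
      simp only [map_add, map_mul, evC, evX]
      ring
    rw [map_mul, map_mul, map_mul, evX, mul_zero, zero_mul, Φ_map, h2, evz] at h1
    have h4 : ev (3 : L[X]) = 3 := map_ofNat ev 3
    rw [h4] at h1
    exact (mul_eq_zero.mp h1).resolve_left (by norm_num)
  by_cases hα0 : α = 0
  · -- second order
    have hc10 : c1 = 0 := by
      have h1 := hev1 z0
      rw [hα0, mul_zero, zero_smul, zero_sub, Φ_neg1, Φ_neg2, Φ_neg3, Φ_smul1, Φ_smul2,
        Φ_smul3] at h1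
      have h5 : (27 * F.Φ p p p z0) * c1 ^ 3 = 0 := by linear_combination (-1) * h1
      rcases mul_eq_zero.mp h5 with h6 | h6
      · exact absurd h6 (mul_ne_zero (by norm_num) hz0)
      · exact pow_eq_zero_iff (three_ne_zero) |>.mp h6
    rw [hα0, mul_zero, C_0, zero_add] at haa
    rw [hc10, mul_zero, C_0, zero_add] at hcc
    obtain ⟨c4, hc4⟩ : ∃ c4 : L[X], c4 = C (3 * c2) + X * C c3 := ⟨_, rfl⟩
    rw [← hc4] at hcc
    obtain ⟨E2, hE2⟩ : ∃ E2, E2 = (3 * C β) • Y - c4 • P := ⟨_, rfl⟩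
    have hEE2 : E1 = (X : L[X]) • E2 := by
      rw [hE1, hE2, haa, hcc]
      ext1 i
      simp only [Pi.sub_apply, Pi.smul_apply, smul_eq_mul]
      ring
    refine ⟨3 * β, 3 * c2, mul_ne_zero (by norm_num) h11, fun z => ?_⟩
    have h0 : 3 * F.Φ E2 E2 E2 (fun i => C (z i)) = C κ * C β ^ 3 * X *
        (3 * aa * F.Φ P P Y (fun i => C (z i)) - cc * F.Φ P P P (fun i => C (z i))) := by
      have := hmain1 z
      rw [hEE2, Φ_smul1, Φ_smul2, Φ_smul3] at this
      apply mul_left_cancel₀ (pow_ne_zero 3 hX)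
      have h7 : aa ^ 3 = X ^ 3 * C β ^ 3 := by rw [haa]; ring
      rw [h7] at this
      linear_combination this
    have h1 := congrArg ev h0
    have h2 : (fun i => ev (E2 i)) = (3 * β) • y0 - (3 * c2) • p := by
      ext1 i
      have e1 := congrFun evP i
      have e2 := congrFun evY i
      have h4 : ev (3 : L[X]) = 3 := map_ofNat ev 3
      simp only [hE2, Pi.sub_apply, Pi.smul_apply, smul_eq_mul, map_sub, map_mul, e1, e2, h4, evC]
      rw [hc4]
      simp only [map_add, map_mul, evC, evX]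
      ring
    rw [map_mul, map_mul, map_mul, evX, mul_zero, zero_mul, Φ_map, h2, evz] at h1
    have h4 : ev (3 : L[X]) = 3 := map_ofNat ev 3
    rw [h4] at h1
    exact (mul_eq_zero.mp h1).resolve_left (by norm_num)
  · exact ⟨6 * α, 3 * c1, mul_ne_zero (by norm_num) hα0, hev1⟩

end core

end Pool.Agent.Work.MP_d5a5f5_ag.DS
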