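import Pool.Agent.Work.MP_d5a5f5_ag.DS.Invol

/-!
The obstruction polynomial is not zero.
-/

namespace Pool.Agent.Work.MP_d5a5f5_ag.DS

open MvPolynomial

universe u

variable {k : Type u} [Field k] {n : ℕ}

/-- linear form `Φ(p,p,p,·)` -/
def polL (F : QT n k) {L : Type*} [Field L] [Algebra k L] (p : Fin n → L) :
    (Fin n → L) →ₗ[L] L where
  toFun z := F.Φ p p p z
  map_add' x y := Φ_add4 F p p p x y
  map_smul' c x := Φ_smul4 F p p p x c

theorem exists_out (F : QT n k) {L : Type*} [Field L] [Algebra k L] (hn : 4 ≤ n)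
    (p y1 : Fin n → L) : ∃ y2 : Fin n → L, F.Φ p p p y2 = 0 ∧
      y2 ∉ Submodule.span L (Set.range ![p, y1]) := by
  by_contra hcon
  push Not at hcon
  have h1 : LinearMap.ker (polL F p) ≤ Submodule.span L (Set.range ![p, y1]) := by
    intro z hz
    exact hcon z hz
  have h2 : Module.finrank L (Submodule.span L (Set.range ![p, y1])) ≤ 2 := by
    have := finrank_range_le_card (R := L) ![p, y1]
    rw [Set.finrank, Fintype.card_fin] at this
    exact this
  have h3 := LinearMap.finrank_range_add_finrank_ker (polL F p)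
  have h4 : Module.finrank L (LinearMap.range (polL F p)) ≤ 1 := by
    have := Submodule.finrank_le (LinearMap.range (polL F p))
    rwa [Module.finrank_self] at this
  rw [Module.finrank_fin_fun] at h3
  have h5 := Submodule.finrank_mono h1
  omega

theorem lift_Φ (F : QT n k) (a b c d : Fin n → k) (L : Type*) [Field L] [Algebra k L] :
    F.Φ (fun i => algebraMap k L (a i)) (fun i => algebraMap k L (b i))
      (fun i => algebraMap k L (c i)) (fun i => algebraMap k L (d i)) =
      algebraMap k L (F.Φ a b c d) :=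
  (Φ_map F a b c d (Algebra.ofId k L)).symm

theorem exists_quad {L : Type*} [Field L] [IsAlgClosed L] (a b c : L) (ha : a ≠ 0) :
    ∃ s : L, a * s ^ 2 + b * s + c = 0 := by
  let P : Polynomial L := Polynomial.C a * Polynomial.X ^ 2
    + Polynomial.C b * Polynomial.X + Polynomial.C c
  have hdeg : P.natDegree = 2 := by
    simp only [P]
    compute_degree!
  obtain ⟨r, hr⟩ := IsAlgClosed.exists_root P (by
    intro h0
    have h1 : P.natDegree = 0 :=
      Polynomial.natDegree_eq_of_degree_eq_some (n := 0) (by simpa using h0)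
    rw [hdeg] at h1
    norm_num at h1)
  refine ⟨r, ?_⟩
  have h1 : Polynomial.eval r P = 0 := hr
  simpa only [P, Polynomial.eval_add, Polynomial.eval_mul, Polynomial.eval_pow,
    Polynomial.eval_X, Polynomial.eval_C] using h1

theorem J_core (F : QT n k) (hn : 4 ≤ n) (p : Fin n → k)
    {L : Type*} [Field L] [CharZero L] [IsAlgClosed L] [Algebra k L]
    (hsm : ∀ w : Fin n → L, (∀ z, F.Φ w w w z = 0) → w = 0) (PL y1 : Fin n → L)
    (hP : ∀ i, PL i = algebraMap k L (p i)) (hPL : PL ≠ 0)
    (q0 : F.Φ PL PL PL PL = 0) (q1 : F.Φ PL PL PL y1 = 0) (q2 : F.Φ PL PL y1 y1 ≠ 0)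
    (hJ : J F (genR p 0) (JD F (genR p 0) (genR p 1) (genR p 2)) (genR p 2) = 0) : False := by
  obtain ⟨z0, hz0⟩ : ∃ z0, F.Φ PL PL PL z0 ≠ 0 := by
    by_contra hcon
    push Not at hcon
    exact hPL (hsm PL hcon)
  obtain ⟨y2, hy2, hspan⟩ := exists_out F hn PL y1
  -- a point of the tangent cone
  obtain ⟨s, hs⟩ : ∃ s : L, F.Φ PL PL (y2 + s • y1) (y2 + s • y1) = 0 := by
    obtain ⟨r, h1⟩ := exists_quad (F.Φ PL PL y1 y1) (2 * F.Φ PL PL y1 y2) (F.Φ PL PL y2 y2) q2
    refine ⟨r, ?_⟩
    simp only [Φ_add3, Φ_add4, Φ_smul3, Φ_smul4]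
    rw [Φ_s34 F PL PL y2 y1]
    linear_combination h1
  set y0 : Fin n → L := y2 + s • y1 with hy0
  have q3 : F.Φ PL PL PL y0 = 0 := by
    rw [hy0, Φ_add4, Φ_smul4, hy2, q1]; ring
  -- the specialised obstruction
  have hspec : ∀ z : Fin n → L, F.Φ PL PL PL z ≠ 0 → J F (fun i => Polynomial.C (PL i))
      (fun i => Polynomial.C (y0 i) + Polynomial.X * Polynomial.C (y1 i))
      (fun i => Polynomial.C (z i)) = 0 := by
    intro z hz
    set PP : Fin n → Polynomial L := fun i => Polynomial.C (PL i) with hPP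
    set YY : Fin n → Polynomial L :=
      fun i => Polynomial.C (y0 i) + Polynomial.X * Polynomial.C (y1 i) with hYY
    set ZZ : Fin n → Polynomial L := fun i => Polynomial.C (z i) with hZZ
    let f : MvPolynomial (Fin n ⊕ Fin n) k →ₐ[k] Polynomial L := aeval (Sum.elim YY ZZ)
    have f0 : (fun i => f (genR p 0 i)) = PP := by
      ext1 i
      change f (C (p i)) = Polynomial.C (PL i)
      rw [hP]
      simp only [f, algHom_C]
      rfl
    have f1 : (fun i => f (genR p 1 i)) = YY := by
      ext1 i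
      change f (X (Sum.inl i)) = _
      simp [f]
    have f2 : (fun i => f (genR p 2 i)) = ZZ := by
      ext1 i
      change f (X (Sum.inr i)) = _
      simp [f]
    have h1 := congrArg f hJ
    rw [map_zero, J_map, JD_map, f0, f1, f2] at h1
    have ΦC : ∀ a b c d : Fin n → L, F.Φ (fun i => Polynomial.C (a i))
        (fun i => Polynomial.C (b i)) (fun i => Polynomial.C (c i))
        (fun i => Polynomial.C (d i)) = Polynomial.C (F.Φ a b c d) := by
      intro a b c d
      have := Φ_map F a b c d ((Algebra.ofId L (Polynomial L)).restrictScalars k)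
      exact this.symm
    have h2 : F.Φ PP PP PP YY = 0 := by
      have : YY = (fun i => Polynomial.C (y0 i)) +
          (Polynomial.X : Polynomial L) • (fun i => Polynomial.C (y1 i)) := rfl
      rw [this, Φ_add4, Φ_smul4, hPP, ΦC, ΦC, q3, q1]
      simp
    have h3 : F.Φ PP PP PP ZZ = Polynomial.C (F.Φ PL PL PL z) := ΦC _ _ _ _
    have h4 : JD F PP YY ZZ = Polynomial.C (F.Φ PL PL PL z) • YY := by
      unfold JD
      rw [h2, h3, zero_smul, sub_zero]
    rw [h4, J_smul] at h1
    refine (mul_eq_zero.mp h1).resolve_left (pow_ne_zero _ ?_)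
    simpa using hz
  have hall : ∀ z : Fin n → L, J F (fun i => Polynomial.C (PL i))
      (fun i => Polynomial.C (y0 i) + Polynomial.X * Polynomial.C (y1 i))
      (fun i => Polynomial.C (z i)) = 0 := by
    intro z
    by_cases hz : F.Φ PL PL PL z = 0
    · have h1 := hspec (z + z0) (by rw [Φ_add4, hz, zero_add]; exact hz0)
      have h2 := hspec z0 hz0
      have h3 : (fun i => Polynomial.C ((z + z0) i)) = (fun i => Polynomial.C (z i)) +
          fun i => Polynomial.C (z0 i) := by
        ext1 i; simp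
      rw [h3, J_add, h2, add_zero] at h1
      exact h1
    · exact hspec z hz
  obtain ⟨r, c, hr, hsing⟩ := line_core F PL y0 y1 q0 q3 q1 hs q2 z0 hz0 hall
  have h1 := hsm _ hsing
  apply hspan
  have h2 : y2 = (r⁻¹ * c) • PL - s • y1 := by
    have h3 : r • y0 = c • PL := sub_eq_zero.mp h1
    have h4 : y0 = (r⁻¹ * c) • PL := by
      rw [mul_smul, ← h3, smul_smul, inv_mul_cancel₀ hr, one_smul]
    rw [← h4, hy0]; abel
  rw [h2]
  refine Submodule.sub_mem _ (Submodule.smul_mem _ _ (Submodule.subset_span ⟨0, rfl⟩))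
    (Submodule.smul_mem _ _ (Submodule.subset_span ⟨1, rfl⟩))

/-- the obstruction is not zero -/
theorem J_ne [CharZero k] (F : QT n k) (hF : F.Sm) (hn : 4 ≤ n) (p : Fin n → k) (hp : p ≠ 0)
    (h0 : F.Φ p p p p = 0) (v1 : Fin n → k) (hv : F.Φ p p p v1 = 0) (ha : F.Φ p p v1 v1 ≠ 0) :
    J F (genR p 0) (JD F (genR p 0) (genR p 1) (genR p 2)) (genR p 2) ≠ 0 := by
  intro hJ
  refine J_core F hn p (L := AlgebraicClosure k) (fun w hw => hF w fun i => hw _)
    (fun i => algebraMap k _ (p i)) (fun i => algebraMap k _ (v1 i)) (fun _ => rfl) ?_ ?_ ?_ ?_ hJ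
  · intro h
    apply hp
    ext i
    have := congrFun h i
    exact (map_eq_zero _).mp this
  · rw [lift_Φ, h0, map_zero]
  · rw [lift_Φ, hv, map_zero]
  · rw [lift_Φ]
    exact (map_ne_zero _).mpr ha

end Pool.Agent.Work.MP_d5a5f5_ag.DS
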