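import Pool.Agent.Work.MP_d5a5f5_ag.DS.Der

/-!
The generic plane section through a point is smooth.
-/

namespace Pool.Agent.Work.MP_d5a5f5_ag.DS

open MvPolynomial

universe u

variable {k : Type u} [Field k] {n : ℕ}

section sums
variable (F : QT n k) {A : Type*} [CommRing A] [Algebra k A] {ι : Type*} (s : Finset ι)

theorem Φ_sum1 (f : ι → Fin n → A) (b c d : Fin n → A) :
    F.Φ (∑ i ∈ s, f i) b c d = ∑ i ∈ s, F.Φ (f i) b c d := by
  classical
  induction s using Finset.induction_on with
  | empty => simp [Φ_zero1]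
  | insert i s hi ih => rw [Finset.sum_insert hi, Finset.sum_insert hi, Φ_add1, ih]

theorem Φ_sum2 (f : ι → Fin n → A) (a c d : Fin n → A) :
    F.Φ a (∑ i ∈ s, f i) c d = ∑ i ∈ s, F.Φ a (f i) c d := by
  classical
  induction s using Finset.induction_on with
  | empty => simp [Φ_zero2]
  | insert i s hi ih => rw [Finset.sum_insert hi, Finset.sum_insert hi, Φ_add2, ih]

theorem Φ_sum3 (f : ι → Fin n → A) (a b d : Fin n → A) :
    F.Φ a b (∑ i ∈ s, f i) d = ∑ i ∈ s, F.Φ a b (f i) d := by
  classical
  induction s using Finset.induction_on with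
  | empty => simp [Φ_zero3]
  | insert i s hi ih => rw [Finset.sum_insert hi, Finset.sum_insert hi, Φ_add3, ih]

theorem Φ_sum4 (f : ι → Fin n → A) (a b c : Fin n → A) :
    F.Φ a b c (∑ i ∈ s, f i) = ∑ i ∈ s, F.Φ a b c (f i) := by
  classical
  induction s using Finset.induction_on with
  | empty => simp [Φ_zero4]
  | insert i s hi ih => rw [Finset.sum_insert hi, Finset.sum_insert hi, Φ_add4, ih]

end sums

section restr
variable {K : Type*} [Field K] [Algebra k K]

/-- the restriction of the quartic to the span of three vectors -/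
def restr (F : QT n k) (s : Fin 3 → Fin n → K) : DP.Quartic K where
  t a b c d := F.Φ (s a) (s b) (s c) (s d)
  s12 _ _ _ _ := Φ_s12 F _ _ _ _
  s23 _ _ _ _ := Φ_s23 F _ _ _ _
  s34 _ _ _ _ := Φ_s34 F _ _ _ _

/-- the linear map -/
def lin {A : Type*} [CommRing A] [Algebra K A] (s : Fin 3 → Fin n → K) (x : Fin 3 → A) :
    Fin n → A :=
  ∑ a, x a • fun i => algebraMap K A (s a i)

theorem restr_Φ (F : QT n k) (s : Fin 3 → Fin n → K) {A : Type*} [CommRing A] [Algebra K A]
    [Algebra k A] [IsScalarTower k K A] (x y z w : Fin 3 → A) :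
    (restr F s).Φ x y z w = F.Φ (lin s x) (lin s y) (lin s z) (lin s w) := by
  unfold lin
  rw [Φ_sum1]
  unfold DP.Quartic.Φ
  refine Finset.sum_congr rfl fun a _ => ?_
  rw [Φ_smul1, Φ_sum2, Finset.mul_sum]
  refine Finset.sum_congr rfl fun b _ => ?_
  rw [Φ_smul2, Φ_sum3, Finset.mul_sum, Finset.mul_sum]
  refine Finset.sum_congr rfl fun c _ => ?_
  rw [Φ_smul3, Φ_sum4, Finset.mul_sum, Finset.mul_sum, Finset.mul_sum]
  refine Finset.sum_congr rfl fun d _ => ?_
  rw [Φ_smul4]
  have h := Φ_map F (s a) (s b) (s c) (s d) (IsScalarTower.toAlgHom k K A)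
  have e : ∀ v : Fin n → K, (fun i => (IsScalarTower.toAlgHom k K A) (v i)) =
      fun i => algebraMap K A (v i) := fun v => rfl
  simp only [e] at h
  rw [← h]
  change algebraMap K A (F.Φ (s a) (s b) (s c) (s d)) * _ = _ *
    (_ * (_ * (_ * algebraMap K A (F.Φ (s a) (s b) (s c) (s d)))))
  ring

theorem lin_single {A : Type*} [CommRing A] [Algebra K A] (s : Fin 3 → Fin n → K) (a : Fin 3) :
    lin s (Pi.single a (1 : A) : Fin 3 → A) = fun i => algebraMap K A (s a i) := by
  unfold lin
  rw [Finset.sum_eq_single a]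
  · simp
  · intro b _ hb; simp [Pi.single_eq_of_ne hb]
  · simp

end restr

section generic

/-- the field of rational functions in the coordinates of two generic vectors -/
abbrev KK (k : Type u) [Field k] (n : ℕ) : Type u :=
  FractionRing (MvPolynomial (Fin n ⊕ Fin n) k)

/-- its algebraic closure -/
abbrev KO (k : Type u) [Field k] (n : ℕ) : Type u := AlgebraicClosure (KK k n)

/-- the three vectors spanning the generic plane through `p` -/
noncomputable def gen (p : Fin n → k) : Fin 3 → Fin n → KK k n :=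
  ![fun i => algebraMap k _ (p i),
    fun i => algebraMap (MvPolynomial (Fin n ⊕ Fin n) k) _ (X (Sum.inl i)),
    fun i => algebraMap (MvPolynomial (Fin n ⊕ Fin n) k) _ (X (Sum.inr i))]

variable [CharZero k] (F : QT n k) (hF : F.Sm) (p : Fin n → k)

/-- derivations of the algebraic closure -/
theorem der1 (c : Fin 2 → Fin n → KO k n) : ∃ D : Derivation k (KO k n) (KO k n),
    (∀ i, D (algebraMap (KK k n) (KO k n) (gen p 0 i)) = 0) ∧
    (∀ i, D (algebraMap (KK k n) (KO k n) (gen p 1 i)) = c 0 i) ∧
    (∀ i, D (algebraMap (KK k n) (KO k n) (gen p 2 i)) = c 1 i) := by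
  obtain ⟨D, hD⟩ := exists_der (k := k) (σ := Fin n ⊕ Fin n) (Sum.elim (c 0) (c 1))
  refine ⟨D, fun i => ?_, fun i => ?_, fun i => ?_⟩
  · have : algebraMap (KK k n) (KO k n) (gen p 0 i) = algebraMap k (KO k n) (p i) := by
      simp only [gen, Matrix.cons_val_zero]
      rw [← IsScalarTower.algebraMap_apply]
    rw [this, Derivation.map_algebraMap]
  · have := hD (Sum.inl i)
    rw [Sum.elim_inl] at this
    rw [← this]
    congr 1
  · have := hD (Sum.inr i)
    rw [Sum.elim_inr] at this
    rw [← this]
    congr 1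

include hF in
/-- the main step: a singular point of the generic plane section has vanishing coordinates -/
theorem plane_core (hn : 4 ≤ n) (x : Fin 3 → KO k n)
    (hx : ∀ a, F.Φ (lin (gen p) x) (lin (gen p) x) (lin (gen p) x)
      (fun i => algebraMap (KK k n) (KO k n) (gen p a i)) = 0) (b : Fin 3) (hb : b ≠ 0) :
    x b = 0 := by
  by_contra hxb
  set z := lin (gen p) x with hz
  set S : Fin 3 → Fin n → KO k n := fun a i => algebraMap (KK k n) (KO k n) (gen p a i) with hS
  have hzS : z = ∑ a, x a • S a := rfl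
  -- derivations
  have hD : ∀ j : Fin n, ∃ D : Derivation k (KO k n) (KO k n), ∀ a, (fun i => D (S a i)) =
      if a = b then (Pi.single j 1 : Fin n → KO k n) else 0 := by
    intro j
    obtain ⟨D, h0, h1, h2⟩ := der1 p (k := k)
      ![if (1 : Fin 3) = b then (Pi.single j 1 : Fin n → KO k n) else 0,
        if (2 : Fin 3) = b then (Pi.single j 1 : Fin n → KO k n) else 0]
    refine ⟨D, fun a => ?_⟩
    ext1 i
    rcases (show a = 0 ∨ a = 1 ∨ a = 2 by fin_cases a <;> simp) with rfl | rfl | rfl
    · rw [if_neg (Ne.symm hb)]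
      exact h0 i
    · exact h1 i
    · exact h2 i
  have hDz : ∀ (D : Derivation k (KO k n) (KO k n)), (fun i => D (z i)) =
      ∑ a, (D (x a) • S a + x a • fun i => D (S a i)) := by
    intro D
    ext1 i
    rw [hzS]
    simp only [Finset.sum_apply, Pi.smul_apply, Pi.add_apply, map_sum, smul_eq_mul,
      Derivation.leibniz]
    exact Finset.sum_congr rfl fun a _ => by ring
  have hzero : ∀ j : Fin n, F.Φ z z z (Pi.single j 1) = 0 := by
    intro j
    obtain ⟨D, hD⟩ := hD j
    have hDz' : (fun i => D (z i)) = ∑ a, D (x a) • S a + x b • (Pi.single j 1 : Fin n → KO k n) := by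
      rw [hDz D]
      simp only [hD, Finset.sum_add_distrib]
      congr 1
      rw [Finset.sum_eq_single b]
      · simp
      · intro a _ ha; simp [ha]
      · simp
    set w : Fin n → KO k n := fun i => D (z i) with hw
    have hT : ∀ a, 3 * F.Φ z z w (S a) + F.Φ z z z (if a = b then (Pi.single j 1 : Fin n → KO k n)
        else 0) = 0 := by
      intro a
      have h1 := congrArg D (hx a)
      rw [map_zero, Φ_der] at h1
      change F.Φ w z z (S a) + F.Φ z w z (S a) + F.Φ z z w (S a)
        + F.Φ z z z (fun i => D (S a i)) = 0 at h1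
      rw [hD a, Φ_s12 F w z, Φ_s23 F z w] at h1
      rw [← h1]; ring
    have hT0 : ∀ a, a ≠ b → F.Φ z z w (S a) = 0 := by
      intro a ha
      have := hT a
      rw [if_neg ha, Φ_zero4, add_zero] at this
      exact (mul_eq_zero.mp this).resolve_left (by norm_num)
    have hTb := hT b
    rw [if_pos rfl] at hTb
    -- two expressions
    have e0 : F.Φ z z w z = F.Φ z z w (∑ a, x a • S a) := by rw [← hzS]
    have e1 : F.Φ z z w z = x b * F.Φ z z w (S b) := by
      rw [e0, Φ_sum4, Finset.sum_eq_single b]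
      · rw [Φ_smul4]
      · intro a _ ha; rw [Φ_smul4, hT0 a ha, mul_zero]
      · simp
    have e2 : F.Φ z z z w = x b * F.Φ z z z (Pi.single j 1) := by
      rw [hDz', Φ_add4, Φ_sum4, Φ_smul4]
      have : ∑ a, F.Φ z z z (D (x a) • S a) = 0 :=
        Finset.sum_eq_zero fun a _ => by rw [Φ_smul4, hx a, mul_zero]
      rw [this, zero_add]
    have e3 : F.Φ z z w (S b) = F.Φ z z z (Pi.single j 1) := by
      apply mul_left_cancel₀ hxb
      rw [← e1, ← e2, Φ_s34]
    have h4 : (4 : KO k n) * F.Φ z z z (Pi.single j 1) = 0 := by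
      rw [e3] at hTb
      rw [← hTb]; ring
    exact (mul_eq_zero.mp h4).resolve_left (by norm_num)
  have hz0 : z = 0 := Sm_big F hF z hzero
  -- all basis vectors lie in the span
  have hspan : ∀ j : Fin n, (Pi.single j 1 : Fin n → KO k n) ∈
      Submodule.span (KO k n) (Set.range S) := by
    intro j
    obtain ⟨D, hD⟩ := hD j
    have h1 := hDz D
    have h2 : (fun i => D (z i)) = 0 := by
      ext1 i; rw [hz0]; exact map_zero D
    rw [h2] at h1
    simp only [hD, Finset.sum_add_distrib] at h1
    have h3 : ∑ a, (x a • (if a = b then (Pi.single j 1 : Fin n → KO k n) else 0)) =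
        x b • (Pi.single j 1 : Fin n → KO k n) := by
      rw [Finset.sum_eq_single b]
      · simp
      · intro a _ ha; simp [ha]
      · simp
    rw [h3] at h1
    have h4 : (Pi.single j 1 : Fin n → KO k n) = (-(x b)⁻¹) • ∑ a, D (x a) • S a := by
      have h5 : x b • (Pi.single j 1 : Fin n → KO k n) = - ∑ a, D (x a) • S a :=
        (neg_eq_of_add_eq_zero_right h1.symm).symm
      rw [neg_smul, ← smul_neg, ← h5, smul_smul, inv_mul_cancel₀ hxb, one_smul]
    rw [h4]
    exact Submodule.smul_mem _ _ (Submodule.sum_mem _ fun a _ =>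
      Submodule.smul_mem _ _ (Submodule.subset_span ⟨a, rfl⟩))
  have htop : Submodule.span (KO k n) (Set.range S) = ⊤ := by
    rw [eq_top_iff]
    intro y _
    have : y = ∑ j, y j • (Pi.single j 1 : Fin n → KO k n) := by
      ext i; simp [Finset.sum_apply, Pi.single_apply]
    rw [this]
    exact Submodule.sum_mem _ fun j _ => Submodule.smul_mem _ _ (hspan j)
  have h1 := finrank_range_le_card (R := KO k n) S
  rw [Set.finrank, htop, finrank_top, Module.finrank_fin_fun, Fintype.card_fin] at h1
  omega

include hF in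
theorem plane_Sm (hn : 4 ≤ n) (hp : p ≠ 0) : (restr F (gen p)).Sm := by
  intro x hx
  have hx' : ∀ a, F.Φ (lin (gen p) x) (lin (gen p) x) (lin (gen p) x)
      (fun i => algebraMap (KK k n) (KO k n) (gen p a i)) = 0 := by
    intro a
    have := hx a
    rwa [restr_Φ, lin_single] at this
  have h1 := plane_core F hF p hn x hx' 1 (by decide)
  have h2 := plane_core F hF p hn x hx' 2 (by decide)
  suffices h0 : x 0 = 0 by
    ext a; fin_cases a
    · exact h0
    · exact h1
    · exact h2
  by_contra h0
  apply hp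
  set P : Fin n → KO k n := fun i => algebraMap (KK k n) (KO k n) (gen p 0 i) with hP
  have hz : lin (gen p) x = x 0 • P := by
    unfold lin
    rw [Fin.sum_univ_three, h1, h2, zero_smul, zero_smul, add_zero, add_zero]
  have h3 := hx' 1
  rw [hz, Φ_smul1, Φ_smul2, Φ_smul3] at h3
  have h4 : F.Φ P P P (fun i => algebraMap (KK k n) (KO k n) (gen p 1 i)) = 0 := by
    have := h3
    rcases mul_eq_zero.mp this with h | h
    · exact absurd h h0
    · rcases mul_eq_zero.mp h with h | h
      · exact absurd h h0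
      · exact (mul_eq_zero.mp h).resolve_left h0
  have hP0 : P = 0 := by
    apply Sm_big F hF
    intro j
    obtain ⟨D, d0, d1, d2⟩ := der1 p (k := k) ![(Pi.single j 1 : Fin n → KO k n), 0]
    have h5 := congrArg D h4
    rw [map_zero, Φ_der] at h5
    have e0 : (fun i => D (P i)) = 0 := by ext1 i; exact d0 i
    have e1 : (fun i => D (algebraMap (KK k n) (KO k n) (gen p 1 i))) = Pi.single j 1 := by
      ext1 i; exact d1 i
    rw [e0, e1, Φ_zero1, Φ_zero2, Φ_zero3] at h5
    rw [← h5]; ring
  ext i
  have h6 := congrFun hP0 i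
  simp only [hP, gen, Matrix.cons_val_zero, Pi.zero_apply] at h6
  rw [← IsScalarTower.algebraMap_apply] at h6
  exact (map_eq_zero _).mp h6

end generic

end Pool.Agent.Work.MP_d5a5f5_ag.DS
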